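import Pool.Agent.Lib.MP_d2370c_gt.SY.Layer

/-!
# The dual side of a polarized body
-/

set_option autoImplicit false

open Finset MeasureTheory Filter Topology

namespace Pool.Agent.Lib.MP_d2370c_gt.SY

open Pool.Agent.Lib.MP_d2370c_gt Pool.Agent.Lib.MP_d2370c_gt.SQ

variable {n d N : ℕ}

private theorem asd_set {m : ℕ} (hm1 : 1 ≤ m) (hmN : m ≤ N) (t : Fin N → ℝ) (γ f : ℝ) (hf : f = 1 ∨ (f = 0 ∧ m = 1))
    (hγ : ∀ S : Finset (Fin N), S.card = m → ∑ j ∈ S, |t j| ≤ γ) (S : Finset (Fin N)) :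
    ∑ j ∈ S, |t j| ≤ (f + (S.card : ℝ) / m) * γ := by
  have hm0 : (0 : ℝ) < m := by exact_mod_cast hm1
  have hγ0 : 0 ≤ γ := by
    obtain ⟨S', -, hS'⟩ := Finset.exists_subset_card_eq (s := (Finset.univ : Finset (Fin N))) (n := m)
      (by rw [Finset.card_univ, Fintype.card_fin]; exact hmN)
    exact (Finset.sum_nonneg fun j _ => abs_nonneg (t j)).trans (hγ S' hS')
  rcases hf with hf | ⟨hf, hm⟩
  · subst hf
    induction hk : S.card using Nat.strong_induction_on generalizing S with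
    | _ k ih =>
      rcases le_or_gt k m with h1 | h1
      · -- extend to a set with `m` elements
        obtain ⟨S', hSS', -, hS'⟩ := Finset.exists_subsuperset_card_eq (Finset.subset_univ S)
          (show S.card ≤ m by omega) (by rw [Finset.card_univ, Fintype.card_fin]; exact hmN)
        have h2 : ∑ j ∈ S, |t j| ≤ ∑ j ∈ S', |t j| :=
          Finset.sum_le_sum_of_subset_of_nonneg hSS' fun j _ _ => abs_nonneg _
        have h3 : γ ≤ (1 + (k : ℝ) / m) * γ := by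
          have h4 : 0 ≤ (k : ℝ) / m := by positivity
          nlinarith [mul_nonneg h4 hγ0]
        exact h2.trans ((hγ S' hS').trans h3)
      · obtain ⟨S1, hS1, hc⟩ := Finset.exists_subset_card_eq (s := S) (n := m) (by omega)
        have h2 : ∑ j ∈ S, |t j| = ∑ j ∈ S \ S1, |t j| + ∑ j ∈ S1, |t j| := (Finset.sum_sdiff hS1).symm
        have h3 : (S \ S1).card = k - m := by
          rw [Finset.card_sdiff_of_subset hS1, hk, hc]
        have h4 := ih (k - m) (by omega) (S \ S1) h3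
        have h5 := hγ S1 hc
        rw [h2]
        have h6 : ((k - m : ℕ) : ℝ) = k - m := by
          push_cast [Nat.cast_sub h1.le]
          ring
        rw [h6] at h4
        have h7 : (1 + ((k : ℝ) - m) / m) * γ + γ = (1 + (k : ℝ) / m) * γ := by
          field_simp
          ring
        linarith
  · subst hf
    subst hm
    have h1 : ∑ j ∈ S, |t j| ≤ ∑ j ∈ S, γ := by
      refine Finset.sum_le_sum fun j _ => ?_
      have := hγ {j} (Finset.card_singleton j)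
      rwa [Finset.sum_singleton] at this
    rw [Finset.sum_const, nsmul_eq_mul] at h1
    simpa using h1

theorem aside {T : Set (Fin N → ℝ)} (i : ℕ) (m : ℕ → ℕ) (γ f : ℕ → ℝ) (Γ : ℝ) (hm : ∀ l < i, 1 ≤ m l ∧ m l ≤ N)
    (hf : ∀ l < i, f l = 1 ∨ (f l = 0 ∧ m l = 1))
    (hγ : ∀ l < i, ∀ S : Finset (Fin N), S.card = m l → ∀ t ∈ T, ∑ j ∈ S, |t j| ≤ γ l) (hΓ : ∀ t ∈ T, ∑ j, |t j| ≤ Γ)
    (c : Fin N → ℝ) (t : Fin N → ℝ) (ht : t ∈ T) :
    ∑ j, |t j| * |c j| ≤ 3 * Γ + ∑ l ∈ range i, 9 * 4 ^ l * ((f l + (∑ j, ind (3 * 4 ^ l) (c j)) / m l) * γ l) +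
      Γ * ∑ j, |c j| * ind (3 * 4 ^ i) (c j) := by
  classical
  have h1 : ∑ j, |t j| * |c j| ≤ ∑ j, |t j| * (3 + ∑ l ∈ range i, 9 * 4 ^ l * ind (3 * 4 ^ l) (c j) +
      |c j| * ind (3 * 4 ^ i) (c j)) :=
    Finset.sum_le_sum fun j _ => mul_le_mul_of_nonneg_left (layer i (c j)) (abs_nonneg _)
  have h2 : ∑ j, |t j| * (3 + ∑ l ∈ range i, 9 * 4 ^ l * ind (3 * 4 ^ l) (c j) + |c j| * ind (3 * 4 ^ i) (c j)) =
      3 * ∑ j, |t j| + ∑ l ∈ range i, 9 * 4 ^ l * ∑ j, |t j| * ind (3 * 4 ^ l) (c j) +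
        ∑ j, |t j| * (|c j| * ind (3 * 4 ^ i) (c j)) := by
    have e1 : ∑ l ∈ range i, 9 * (4 : ℝ) ^ l * ∑ j, |t j| * ind (3 * 4 ^ l) (c j) =
        ∑ j, ∑ l ∈ range i, |t j| * (9 * 4 ^ l * ind (3 * 4 ^ l) (c j)) := by
      rw [Finset.sum_comm]
      refine Finset.sum_congr rfl fun l _ => ?_
      rw [Finset.mul_sum]
      exact Finset.sum_congr rfl fun j _ => by ring
    rw [e1, Finset.mul_sum, ← Finset.sum_add_distrib, ← Finset.sum_add_distrib]
    refine Finset.sum_congr rfl fun j _ => ?_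
    rw [← Finset.mul_sum]
    ring
  rw [h2] at h1
  have h3 : 3 * ∑ j, |t j| ≤ 3 * Γ := by linarith [hΓ t ht]
  have h4 : ∑ l ∈ range i, 9 * (4 : ℝ) ^ l * ∑ j, |t j| * ind (3 * 4 ^ l) (c j) ≤
      ∑ l ∈ range i, 9 * 4 ^ l * ((f l + (∑ j, ind (3 * 4 ^ l) (c j)) / m l) * γ l) := by
    refine Finset.sum_le_sum fun l hl => mul_le_mul_of_nonneg_left ?_ (by positivity)
    have hl' := Finset.mem_range.1 hl
    have h5 := asd_set (hm l hl').1 (hm l hl').2 t (γ l) (f l) (hf l hl') (fun S hS => hγ l hl' S hS t ht)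
      (Finset.univ.filter fun j => 3 * 4 ^ l ≤ |c j|)
    have e1 : ∑ j, |t j| * ind (3 * 4 ^ l) (c j) = ∑ j ∈ Finset.univ.filter (fun j => 3 * 4 ^ l ≤ |c j|), |t j| := by
      rw [Finset.sum_filter]
      refine Finset.sum_congr rfl fun j _ => ?_
      unfold ind
      split_ifs
      · rw [mul_one]
      · rw [mul_zero]
    have e2 : ∑ j, ind (3 * 4 ^ l) (c j) = ((Finset.univ.filter fun j => 3 * 4 ^ l ≤ |c j|).card : ℝ) := by
      rw [Finset.card_eq_sum_ones, Nat.cast_sum, Finset.sum_filter]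
      refine Finset.sum_congr rfl fun j _ => ?_
      unfold ind
      split_ifs
      · rw [Nat.cast_one]
      · rfl
    rw [e1, e2]
    exact h5
  have h5 : ∑ j, |t j| * (|c j| * ind (3 * 4 ^ i) (c j)) ≤ Γ * ∑ j, |c j| * ind (3 * 4 ^ i) (c j) := by
    rw [Finset.mul_sum]
    refine Finset.sum_le_sum fun j _ => mul_le_mul_of_nonneg_right ?_ ?_
    · exact (Finset.single_le_sum (f := fun j => |t j|) (fun j _ => abs_nonneg (t j)) (Finset.mem_univ j)).trans (hΓ t ht)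
    · refine mul_nonneg (abs_nonneg _) ?_
      unfold ind
      split_ifs
      · exact zero_le_one
      · exact le_rfl
  linarith

end Pool.Agent.Lib.MP_d2370c_gt.SY
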