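import Pool.Agent.Lib.MP_d2370c_gt.SY.Defs
import Pool.Agent.Lib.MP_d2370c_gt.SQ.Conv
import Pool.Agent.Lib.MP_d2370c_gt.SQ.Tent
import Pool.Agent.Lib.MP_d2370c_gt.SQ.TT

/-!
# SY, module BaseQ: windows with polynomially decaying transforms
-/

set_option autoImplicit false

open Finset MeasureTheory Filter Topology

namespace Pool.Agent.Lib.MP_d2370c_gt.SY

open Pool.Agent.Lib.MP_d2370c_gt Pool.Agent.Lib.MP_d2370c_gt.SQ
open Pool.Agent.Lib.MP_d2370c_gt.SQ.TT (tent_cont tent_nonneg tent_out tent_in)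

/-- the convolution of `m + 1` tents -/
noncomputable def bqT : ℕ → ℝ → ℝ
  | 0 => tent
  | m + 1 => cv (bqT m) tent

theorem bqT_pair (m : ℕ) : FP (bqT m) (fun t => fejer t ^ (m + 1)) := by
  induction m with
  | zero =>
    have : (fun t => fejer t ^ (0 + 1)) = fejer := by
      funext t
      rw [zero_add, pow_one]
    rw [this]
    exact FP_tent
  | succ m ih =>
    have h := ih.conv FP_tent
    have e1 : (fun t => fejer t ^ (m + 1) * fejer t) = fun t => fejer t ^ (m + 1 + 1) := by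
      funext t
      rw [pow_succ (fejer t) (m + 1)]
    rw [e1] at h
    exact h

theorem bqT_nonneg (m : ℕ) (t : ℝ) : 0 ≤ bqT m t := by
  induction m generalizing t with
  | zero => exact tent_nonneg t
  | succ m ih => exact cv_nonneg ih tent_nonneg t

theorem bqT_out (m : ℕ) (t : ℝ) (ht : (m : ℝ) + 1 ≤ |t|) : bqT m t = 0 := by
  induction m generalizing t with
  | zero =>
    refine tent_out t ?_
    simpa using ht
  | succ m ih =>
    change cv (bqT m) tent t = 0
    unfold cv
    refine integral_eq_zero_of_ae (Filter.Eventually.of_forall fun r => ?_)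
    show bqT m (t - r) * tent r = 0
    rcases le_total 1 |r| with h | h
    · rw [tent_out r h, mul_zero]
    · rw [ih (t - r), zero_mul]
      have h1 : |t| ≤ |t - r| + |r| := by
        calc |t| = |(t - r) + r| := by rw [sub_add_cancel]
          _ ≤ _ := abs_add_le _ _
      push_cast at ht
      linarith

theorem bqT_int (f : ℝ → ℝ) (hf : Continuous f) (s : ℝ) : Integrable fun r => f (s - r) * tent r := by
  refine ((hf.comp (continuous_const.sub continuous_id)).mul tent_cont).integrable_of_hasCompactSupport ?_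
  refine HasCompactSupport.intro (K := Set.Icc (-1 : ℝ) 1) isCompact_Icc ?_
  intro x hx
  have h : 1 ≤ |x| := by
    by_contra h
    rw [not_le, abs_lt] at h
    exact hx ⟨h.1.le, h.2.le⟩
  show f (s - x) * tent x = 0
  rw [tent_out x h, mul_zero]

theorem bqT_ge (m : ℕ) (t : ℝ) : (2 / 3 : ℝ) ^ m * tent t ≤ bqT m t := by
  induction m generalizing t with
  | zero =>
    rw [pow_zero, one_mul]
    exact le_rfl
  | succ m ih =>
    have h1 : (2 / 3 : ℝ) ^ m * cv tent tent t ≤ cv (bqT m) tent t := by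
      unfold cv
      rw [← integral_const_mul]
      refine integral_mono ((bqT_int tent tent_cont t).const_mul _)
        (bqT_int (bqT m) (bqT_pair m).contf t) fun r => ?_
      show (2 / 3 : ℝ) ^ m * (tent (t - r) * tent r) ≤ bqT m (t - r) * tent r
      rw [← mul_assoc]
      exact mul_le_mul_of_nonneg_right (ih (t - r)) (tent_nonneg r)
    have h2 := mul_le_mul_of_nonneg_left (tt_ge t) (by positivity : (0 : ℝ) ≤ (2 / 3) ^ m)
    calc (2 / 3 : ℝ) ^ (m + 1) * tent t = (2 / 3) ^ m * (2 / 3 * tent t) := by ring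
      _ ≤ (2 / 3) ^ m * cv tent tent t := h2
      _ ≤ cv (bqT m) tent t := h1

theorem bq_fejer_nonneg (x : ℝ) : 0 ≤ fejer x := sq_nonneg _

theorem bq_fejer_le (y : ℝ) : (Real.pi * y) ^ 2 * fejer y ≤ 1 := by
  unfold fejer
  have hs : (Real.pi * y) * Real.sinc (Real.pi * y) = Real.sin (Real.pi * y) := by
    by_cases h0 : Real.pi * y = 0
    · rw [h0]
      simp
    · rw [Real.sinc_of_ne_zero h0, mul_div_cancel₀ _ h0]
  calc (Real.pi * y) ^ 2 * Real.sinc (Real.pi * y) ^ 2 = ((Real.pi * y) * Real.sinc (Real.pi * y)) ^ 2 := by ring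
    _ = Real.sin (Real.pi * y) ^ 2 := by rw [hs]
    _ ≤ 1 := Real.sin_sq_le_one _

theorem exists_base (q : ℕ) (hq : 1 ≤ q) : ∃ (C : ℝ) (b κ b1 κ1 : ℝ → ℝ), 0 ≤ C ∧ BaseQ q C b κ b1 κ1 := by
  set α : ℝ := 1 / (q + 1) with hα
  have hα0 : 0 < α := by positivity
  set c0 : ℝ := 1 / (Real.pi ^ 2 * α ^ 2) with hc0
  have hc0p : 0 < c0 := by positivity
  refine ⟨c0 ^ q * (3 / 2) ^ q, fun x => α * fejer (α * x) ^ (q + 1), fun t => bqT q (t / α),
    fun x => c0 ^ q * (α * fejer (α * x)), fun t => c0 ^ q * tent (t / α), by positivity, ?_⟩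
  have hda : ∀ t : ℝ, t / α = (q + 1) * t := by
    intro t
    rw [hα]
    field_simp
  refine ⟨?_, ?_, ?_, ?_, ?_, ?_, ?_, ?_⟩
  · exact (bqT_pair q).symm.scale α hα0
  · exact (FP_tent.symm.scale α hα0).smul (c0 ^ q)
  · intro x
    have := bq_fejer_nonneg (α * x)
    positivity
  · intro t
    exact bqT_nonneg q _
  · have h1 := bqT_ge q 0
    have h2 : tent 0 = 1 := by
      rw [tent_in 0 (by simp)]
      simp
    rw [h2, mul_one] at h1
    show 0 < bqT q (0 / α)
    rw [zero_div]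
    exact lt_of_lt_of_le (by positivity) h1
  · intro t ht
    refine bqT_out q _ ?_
    rw [hda, abs_mul, abs_of_nonneg (by positivity : (0 : ℝ) ≤ q + 1)]
    have : (0 : ℝ) ≤ (q : ℝ) + 1 := by positivity
    nlinarith
  · intro x
    show x ^ (2 * q) * (α * fejer (α * x) ^ (q + 1)) ≤ c0 ^ q * (α * fejer (α * x))
    have h0 := bq_fejer_nonneg (α * x)
    have h1 : x ^ 2 * fejer (α * x) ≤ c0 := by
      have h2 := bq_fejer_le (α * x)
      rw [hc0, le_div_iff₀ (by positivity)]
      calc x ^ 2 * fejer (α * x) * (Real.pi ^ 2 * α ^ 2) = (Real.pi * (α * x)) ^ 2 * fejer (α * x) := by ring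
        _ ≤ 1 := h2
    have h3 : (x ^ 2 * fejer (α * x)) ^ q ≤ c0 ^ q := pow_le_pow_left₀ (by positivity) h1 q
    calc x ^ (2 * q) * (α * fejer (α * x) ^ (q + 1)) = (x ^ 2 * fejer (α * x)) ^ q * (α * fejer (α * x)) := by
          rw [mul_pow, ← pow_mul, pow_succ]
          ring
      _ ≤ c0 ^ q * (α * fejer (α * x)) := mul_le_mul_of_nonneg_right h3 (by positivity)
  · intro t
    show |c0 ^ q * tent (t / α)| ≤ c0 ^ q * (3 / 2) ^ q * bqT q (t / α)
    have h1 := bqT_ge q (t / α)
    have h2 := tent_nonneg (t / α)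
    rw [abs_of_nonneg (by positivity)]
    have h3 : tent (t / α) ≤ (3 / 2) ^ q * bqT q (t / α) := by
      have h4 : (3 / 2 : ℝ) ^ q * (2 / 3) ^ q = 1 := by
        rw [← mul_pow]
        norm_num
      calc tent (t / α) = (3 / 2 : ℝ) ^ q * (2 / 3) ^ q * tent (t / α) := by rw [h4, one_mul]
        _ = (3 / 2 : ℝ) ^ q * ((2 / 3) ^ q * tent (t / α)) := by ring
        _ ≤ _ := mul_le_mul_of_nonneg_left h1 (by positivity)
    calc c0 ^ q * tent (t / α) ≤ c0 ^ q * ((3 / 2) ^ q * bqT q (t / α)) :=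
          mul_le_mul_of_nonneg_left h3 (by positivity)
      _ = _ := by ring

end Pool.Agent.Lib.MP_d2370c_gt.SY
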