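import Pool.Agent.Lib.MP_d2370c_gt.SY.Defs

set_option autoImplicit false

open Finset MeasureTheory Filter Topology

namespace Pool.Agent.Lib.MP_d2370c_gt.SY

open Pool.Agent.Lib.MP_d2370c_gt Pool.Agent.Lib.MP_d2370c_gt.SQ

theorem ep_pos (q i a : ℕ) : 0 < ep q i a := by
  unfold ep; positivity

theorem ep_le_one (q i a : ℕ) : ep q i a ≤ 1 := by
  unfold ep
  exact pow_le_one₀ (by norm_num) (by norm_num)

theorem mm_mem {N : ℕ} (hN : 1 ≤ N) {ε : ℝ} (hε : 0 < ε) (hε1 : ε ≤ 1) : 1 ≤ mm N ε ∧ mm N ε ≤ N := by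
  refine ⟨le_max_left _ _, max_le hN ?_⟩
  refine Nat.ceil_le.2 ?_
  have : (0 : ℝ) ≤ N := Nat.cast_nonneg N
  nlinarith

theorem fl_cases {N : ℕ} {ε : ℝ} : fl N ε = 1 ∨ (fl N ε = 0 ∧ mm N ε = 1) := by
  unfold fl mm
  split_ifs with h
  · exact Or.inl rfl
  · refine Or.inr ⟨rfl, max_eq_left ?_⟩
    refine Nat.ceil_le.2 ?_
    push_cast
    linarith

private theorem cost_aux {N : ℕ} {ε : ℝ} (hε : 0 < ε) {κ : ℝ} (hκ : 0 ≤ κ) :
    fl N ε + N * (κ * ε) / mm N ε ≤ (1 + κ) * min 1 ((N : ℝ) * ε) := by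
  unfold fl mm
  split_ifs with h
  · rw [min_eq_left h]
    have h1 : (N : ℝ) * ε ≤ ((max 1 ⌈(N : ℝ) * ε⌉₊ : ℕ) : ℝ) :=
      (Nat.le_ceil _).trans (by exact_mod_cast le_max_right _ _)
    have h0 : (0 : ℝ) < ((max 1 ⌈(N : ℝ) * ε⌉₊ : ℕ) : ℝ) := by
      exact_mod_cast (le_max_left _ _ : 1 ≤ max 1 ⌈(N : ℝ) * ε⌉₊)
    have h2 : N * (κ * ε) / ((max 1 ⌈(N : ℝ) * ε⌉₊ : ℕ) : ℝ) ≤ κ := by
      rw [div_le_iff₀ h0]
      nlinarith
    linarith
  · push Not at h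
    have h1 : max 1 ⌈(N : ℝ) * ε⌉₊ = 1 := max_eq_left (Nat.ceil_le.2 (by push_cast; exact h.le))
    rw [h1, min_eq_right h.le]
    have : 0 ≤ (N : ℝ) * ε := mul_nonneg (Nat.cast_nonneg N) hε.le
    push_cast
    rw [div_one]
    nlinarith

theorem cost_x {N : ℕ} (hN : 1 ≤ N) {ε : ℝ} (hε : 0 < ε) (r : ℕ → ℝ) (hr : 0 < r (mm N ε)) {κ : ℝ} (hκ : 0 ≤ κ) :
    (fl N ε + N * (κ * ε) / mm N ε) / r (mm N ε) ≤ (1 + κ) * cx N r ε := by
  unfold cx
  rw [← mul_div_assoc]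
  exact div_le_div_of_nonneg_right (cost_aux hε hκ) hr.le

private theorem ga_nonneg {c D : ℝ} (hD : 1 ≤ D) {N : ℕ} {r : ℕ → ℝ} {m : ℕ} (hr : 0 < r m) : 0 ≤ ga c D N r m := by
  unfold ga
  have : 0 ≤ ((m : ℝ) / N) ^ c := Real.rpow_nonneg (by positivity) c
  exact mul_nonneg (mul_nonneg (by linarith) hr.le) this

theorem cost_c {c D : ℝ} (hD : 1 ≤ D) {N : ℕ} (hN : 1 ≤ N) {ε : ℝ} (hε : 0 < ε) (r : ℕ → ℝ) (hr : 0 < r (mm N ε)) {κ : ℝ} (hκ : 0 ≤ κ) :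
    (fl N ε + N * (κ * ε) / mm N ε) * ga c D N r (mm N ε) ≤ (1 + κ) * cc c D N r ε := by
  unfold cc
  rw [← mul_assoc (1 + κ)]
  exact mul_le_mul_of_nonneg_right (cost_aux hε hκ) (ga_nonneg hD hr)

theorem cost_prod {c D : ℝ} (hc : 0 < c) (hc1 : c ≤ 1) (hD : 1 ≤ D) {N : ℕ} (hN : 1 ≤ N) {ε : ℝ} (hε : 0 < ε) (hε1 : ε ≤ 1) (r : ℕ → ℝ)
    (hr : 0 < r (mm N ε)) : cx N r ε * cc c D N r ε ≤ 2 * D * ε ^ c := by
  have hN0 : (0 : ℝ) < N := by exact_mod_cast hN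
  have h1 : cx N r ε * cc c D N r ε = min 1 ((N : ℝ) * ε) ^ 2 * D * ((mm N ε : ℝ) / N) ^ c := by
    unfold cx cc ga
    field_simp
  have h2 : min 1 ((N : ℝ) * ε) ^ 2 * ((mm N ε : ℝ) / N) ^ c ≤ 2 * ε ^ c := by
    rcases le_or_gt 1 ((N : ℝ) * ε) with h | h
    · rw [min_eq_left h, one_pow, one_mul]
      have h3 : (mm N ε : ℝ) ≤ 2 * (N * ε) := by
        unfold mm
        rcases le_total 1 ⌈(N : ℝ) * ε⌉₊ with h4 | h4
        · rw [max_eq_right h4]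
          have := Nat.ceil_lt_add_one (show (0 : ℝ) ≤ N * ε by positivity)
          linarith
        · rw [max_eq_left h4]
          push_cast
          linarith
      have h4 : (mm N ε : ℝ) / N ≤ 2 * ε := by
        rw [div_le_iff₀ hN0]
        linarith
      calc ((mm N ε : ℝ) / N) ^ c ≤ (2 * ε) ^ c := Real.rpow_le_rpow (by positivity) h4 hc.le
        _ = 2 ^ c * ε ^ c := Real.mul_rpow (by norm_num) hε.le
        _ ≤ 2 ^ (1 : ℝ) * ε ^ c :=
            mul_le_mul_of_nonneg_right (Real.rpow_le_rpow_of_exponent_le (by norm_num) hc1) (by positivity)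
        _ = 2 * ε ^ c := by rw [Real.rpow_one]
    · have h3 : mm N ε = 1 := max_eq_left (Nat.ceil_le.2 (by push_cast; exact h.le))
      rw [min_eq_right h.le, h3]
      have hp : (0 : ℝ) < N * ε := by positivity
      have h4 : ((N : ℝ) * ε) ^ 2 ≤ (N * ε) ^ c := by
        rw [← Real.rpow_natCast]
        exact Real.rpow_le_rpow_of_exponent_ge hp h.le (by push_cast; linarith)
      have h5 : ((N : ℝ) * ε) ^ c * (((1 : ℕ) : ℝ) / N) ^ c = ε ^ c := by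
        rw [← Real.mul_rpow hp.le (by positivity)]
        congr 1
        push_cast
        field_simp
      have h6 : 0 ≤ (((1 : ℕ) : ℝ) / N) ^ c := Real.rpow_nonneg (by positivity) c
      have h7 := mul_le_mul_of_nonneg_right h4 h6
      have h8 : 0 ≤ ε ^ c := Real.rpow_nonneg hε.le c
      linarith
  rw [h1]
  have : 0 ≤ D := by linarith
  nlinarith

theorem dich {c D : ℝ} (hc : 0 < c) (hc1 : c ≤ 1) (hD : 1 ≤ D) {q N : ℕ} (hq : 3 ≤ 2 * q * c) (hN : 1 ≤ N) (r : ℕ → ℝ) (i a : ℕ)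
    (hr : 0 < r (mm N (ep q i a))) (h : ¬ PX D q N r i a) : 4 ^ a * cc c D N r (ep q i a) ≤ Real.sqrt (2 * D) / 4 ^ (i + a) := by
  unfold PX at h
  push Not at h
  by_contra h2
  push Not at h2
  set s : ℝ := Real.sqrt (2 * D) / 4 ^ (i + a) with hs
  have hs0 : 0 < s := div_pos (Real.sqrt_pos.2 (by linarith)) (by positivity)
  have h3 : s * s < (4 ^ i * cx N r (ep q i a)) * (4 ^ a * cc c D N r (ep q i a)) :=
    mul_lt_mul h h2.le hs0 (hs0.trans h).le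
  have h4 := cost_prod hc hc1 hD hN (ep_pos q i a) (ep_le_one q i a) r hr
  have h5 : (ep q i a) ^ c ≤ (1 / 4 : ℝ) ^ (3 * (i + a)) := by
    unfold ep
    rw [← Real.rpow_natCast, ← Real.rpow_mul (by norm_num), ← Real.rpow_natCast]
    refine Real.rpow_le_rpow_of_exponent_ge (by norm_num) (by norm_num) ?_
    push_cast
    have : (0 : ℝ) ≤ i + a := by positivity
    nlinarith
  have h6 : s * s = 2 * D * (1 / 4) ^ (2 * (i + a)) := by
    rw [hs, div_mul_div_comm, Real.mul_self_sqrt (by linarith), ← pow_add, one_div, inv_pow, div_eq_mul_inv]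
    congr 3
    ring
  have h7 : (4 ^ i * cx N r (ep q i a)) * (4 ^ a * cc c D N r (ep q i a)) ≤ s * s := by
    calc (4 ^ i * cx N r (ep q i a)) * (4 ^ a * cc c D N r (ep q i a))
        = 4 ^ (i + a) * (cx N r (ep q i a) * cc c D N r (ep q i a)) := by rw [pow_add]; ring
      _ ≤ 4 ^ (i + a) * (2 * D * (1 / 4) ^ (3 * (i + a))) := by
          refine mul_le_mul_of_nonneg_left (h4.trans ?_) (by positivity)
          exact mul_le_mul_of_nonneg_left h5 (by linarith)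
      _ = 2 * D * (1 / 4) ^ (2 * (i + a)) * (4 ^ (i + a) * (1 / 4) ^ (i + a)) := by
          have : 3 * (i + a) = 2 * (i + a) + (i + a) := by ring
          rw [this, pow_add]
          ring
      _ = s * s := by
          rw [h6, ← mul_pow]
          norm_num
  linarith

theorem geo {D : ℝ} (i : ℕ) (m : ℕ → ℕ) (x : ℕ → ℝ) (h : ∀ l < i, 4 ^ l * x l ≤ Real.sqrt (2 * D) / 4 ^ (l + m l)) :
    ∑ l ∈ range i, 9 * 4 ^ l * x l ≤ 12 * Real.sqrt (2 * D) := by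
  have h1 : ∀ l ∈ range i, 9 * 4 ^ l * x l ≤ 9 * Real.sqrt (2 * D) * (1 / 4) ^ l := by
    intro l hl
    have h2 := h l (mem_range.1 hl)
    have h3 : Real.sqrt (2 * D) / 4 ^ (l + m l) ≤ Real.sqrt (2 * D) * (1 / 4) ^ l := by
      rw [div_eq_mul_inv, one_div, inv_pow]
      refine mul_le_mul_of_nonneg_left ?_ (Real.sqrt_nonneg _)
      refine inv_anti₀ (by positivity) ?_
      exact pow_le_pow_right₀ (by norm_num) (Nat.le_add_right _ _)
    linarith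
  refine (Finset.sum_le_sum h1).trans ?_
  rw [← Finset.mul_sum]
  have h2 : ∑ l ∈ range i, (1 / 4 : ℝ) ^ l ≤ 4 / 3 := by
    rw [geom_sum_eq (by norm_num)]
    have : (0 : ℝ) ≤ (1 / 4) ^ i := by positivity
    rw [div_le_iff_of_neg (by norm_num)]
    linarith
  have h3 : 0 ≤ 9 * Real.sqrt (2 * D) := by positivity
  have h4 := mul_le_mul_of_nonneg_left h2 h3
  linarith

end Pool.Agent.Lib.MP_d2370c_gt.SY
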