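import Pool.Agent.Lib.MP_d2370c_gt.SY.Layer

/-!
# SY, row S7: the primal side
-/

set_option autoImplicit false

open Finset

namespace Pool.Agent.Lib.MP_d2370c_gt.SY

open Pool.Agent.Lib.MP_d2370c_gt Pool.Agent.Lib.MP_d2370c_gt.SQ

variable {N : ℕ}

/-- `x ∈ a • T` -/
def XP (T : Set (Fin N → ℝ)) (a : ℝ) (x : Fin N → ℝ) : Prop := 0 ≤ a ∧ ∃ s ∈ T, x = a • s

theorem XP.dom {T : Set (Fin N → ℝ)} (hsol : Solid T) {a : ℝ} {x y : Fin N → ℝ} (h : XP T a x) (hy : ∀ j, |y j| ≤ |x j|) :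
    XP T a y := by
  obtain ⟨ha, s, hs, rfl⟩ := h
  refine ⟨ha, ?_⟩
  rcases ha.eq_or_lt with h0 | h0
  · refine ⟨s, hs, ?_⟩
    ext j
    have := hy j
    rw [← h0] at this ⊢
    simp at this ⊢
    exact this
  · refine ⟨a⁻¹ • y, hsol s hs _ ?_, ?_⟩
    · intro j
      have := hy j
      simp only [Pi.smul_apply, smul_eq_mul, abs_mul] at this ⊢
      rw [abs_of_pos h0] at this
      rw [abs_of_pos (inv_pos.2 h0), inv_mul_le_iff₀ h0]
      exact this
    · rw [smul_smul, mul_inv_cancel₀ h0.ne', one_smul]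

theorem XP.add {T : Set (Fin N → ℝ)} (hconv : Convex ℝ T) {a b : ℝ} {x y : Fin N → ℝ} (h : XP T a x) (h' : XP T b y) :
    XP T (a + b) (x + y) := by
  obtain ⟨ha, s, hs, rfl⟩ := h
  obtain ⟨hb, s', hs', rfl⟩ := h'
  refine ⟨add_nonneg ha hb, ?_⟩
  rcases (add_nonneg ha hb).eq_or_lt with h0 | h0
  · have ha0 : a = 0 := by linarith
    have hb0 : b = 0 := by linarith
    refine ⟨s, hs, ?_⟩
    rw [ha0, hb0]
    simp
  · refine ⟨(a / (a + b)) • s + (b / (a + b)) • s', hconv hs hs' (by positivity) (by positivity) (by field_simp), ?_⟩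
    rw [smul_add, smul_smul, smul_smul, mul_div_cancel₀ _ h0.ne', mul_div_cancel₀ _ h0.ne']

theorem XP.smul {T : Set (Fin N → ℝ)} {a : ℝ} {x : Fin N → ℝ} (h : XP T a x) {c : ℝ} (hc : 0 ≤ c) : XP T (c * a) (c • x) := by
  obtain ⟨ha, s, hs, rfl⟩ := h
  exact ⟨mul_nonneg hc ha, s, hs, by rw [smul_smul]⟩

theorem XP.mono {T : Set (Fin N → ℝ)} (hsol : Solid T) {a b : ℝ} {x : Fin N → ℝ} (h : XP T a x) (hab : a ≤ b) : XP T b x := by
  obtain ⟨ha, s, hs, rfl⟩ := h
  have h1 : XP T b (b • s) := ⟨ha.trans hab, s, hs, rfl⟩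
  refine h1.dom hsol fun j => ?_
  simp only [Pi.smul_apply, smul_eq_mul, abs_mul]
  rw [abs_of_nonneg ha, abs_of_nonneg (ha.trans hab)]
  gcongr

theorem XP.sum {ι : Type*} {T : Set (Fin N → ℝ)} (hconv : Convex ℝ T) (hne : T.Nonempty) (S : Finset ι) (a : ι → ℝ) (x : ι → Fin N → ℝ)
    (h : ∀ i ∈ S, XP T (a i) (x i)) : XP T (∑ i ∈ S, a i) (∑ i ∈ S, x i) := by
  classical
  induction S using Finset.induction_on with
  | empty =>
    obtain ⟨s, hs⟩ := hne
    exact ⟨le_of_eq (by simp), s, hs, by simp⟩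
  | insert i S hi ih =>
    rw [sum_insert hi, sum_insert hi]
    exact (h i (mem_insert_self _ _)).add hconv (ih fun k hk => h k (mem_insert_of_mem hk))

/-- indicator of a set -/
noncomputable def oneS (S : Finset (Fin N)) : Fin N → ℝ := fun j => if j ∈ S then 1 else 0

theorem XP_card {T : Set (Fin N → ℝ)} (hsol : Solid T) {m : ℕ} {r : ℝ} (hr : 0 < r) (hm : m ≤ N)
    (hT : ∀ S : Finset (Fin N), S.card = m → (fun j => if j ∈ S then r else 0) ∈ T) (S : Finset (Fin N)) (hS : S.card ≤ m) :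
    XP T (1 / r) (oneS S) := by
  obtain ⟨S', hSS', hS'⟩ : ∃ S' : Finset (Fin N), S ⊆ S' ∧ S'.card = m := by
    obtain ⟨S', h1, h2⟩ := Finset.exists_superset_card_eq hS (by rw [Fintype.card_fin]; exact hm)
    exact ⟨S', h1, h2⟩
  have h1 : XP T (1 / r) (oneS S') := by
    refine ⟨by positivity, _, hT S' hS', ?_⟩
    ext j
    unfold oneS
    simp only [Pi.smul_apply, smul_eq_mul]
    split_ifs
    · field_simp
    · simp
  refine h1.dom hsol fun j => ?_
  unfold oneS
  by_cases h : j ∈ S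
  · rw [if_pos h, if_pos (hSS' h)]
  · rw [if_neg h, abs_zero]
    exact abs_nonneg _

theorem XP_set {T : Set (Fin N → ℝ)} (hconv : Convex ℝ T) (hsol : Solid T) (hne : T.Nonempty) {m : ℕ} {r f : ℝ} (hr : 0 < r)
    (hm1 : 1 ≤ m) (hm : m ≤ N) (hf : f = 1 ∨ (f = 0 ∧ m = 1))
    (hT : ∀ S : Finset (Fin N), S.card = m → (fun j => if j ∈ S then r else 0) ∈ T) (S : Finset (Fin N)) :
    XP T ((f + (S.card : ℝ) / m) / r) (oneS S) := by
  classical
  have hm0 : (0 : ℝ) < m := by exact_mod_cast hm1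
  rcases hf with rfl | ⟨rfl, rfl⟩
  · induction hn : S.card using Nat.strong_induction_on generalizing S with
    | _ n ih =>
      by_cases h : S.card ≤ m
      · refine (XP_card hsol hr hm hT S h).mono hsol ?_
        apply div_le_div_of_nonneg_right _ hr.le
        have : (0 : ℝ) ≤ (n : ℝ) / m := by positivity
        linarith
      · obtain ⟨S1, hS1, hS1c⟩ := Finset.exists_subset_card_eq (show m ≤ S.card by omega)
        have h2 : (S \ S1).card = n - m := by
          rw [card_sdiff_of_subset hS1, hS1c, hn]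
        have h3 := ih (n - m) (by omega) (S \ S1) h2
        have h4 := XP_card hsol hr hm hT S1 hS1c.le
        have h5 := h4.add hconv h3
        have e1 : oneS S1 + oneS (S \ S1) = oneS S := by
          ext j
          unfold oneS
          simp only [Pi.add_apply, mem_sdiff]
          by_cases ha : j ∈ S1
          · have hb := hS1 ha
            simp [ha, hb]
          · by_cases hb : j ∈ S
            · simp [ha, hb]
            · simp [ha, hb]
        have e2 : 1 / r + (1 + ((n - m : ℕ) : ℝ) / m) / r = (1 + (n : ℝ) / m) / r := by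
          rw [Nat.cast_sub (by omega)]
          field_simp
          ring
        rw [e1, e2] at h5
        exact h5
  · have h1 : ∀ j ∈ S, XP T (1 / r) (oneS {j}) := by
      intro j _
      exact XP_card hsol hr hm hT {j} (by simp)
    have h2 := XP.sum hconv hne S (fun _ => 1 / r) (fun j => oneS {j}) h1
    have e1 : ∑ j ∈ S, oneS {j} = oneS S := by
      ext k
      rw [Finset.sum_apply]
      unfold oneS
      simp only [mem_singleton]
      rw [Finset.sum_ite_eq S k (fun _ => (1 : ℝ))]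
    rw [e1, sum_const, nsmul_eq_mul] at h2
    have e2 : (0 + (S.card : ℝ) / ((1 : ℕ) : ℝ)) / r = S.card * (1 / r) := by
      push_cast
      ring
    rw [e2]
    exact h2

theorem xside {T : Set (Fin N → ℝ)} (hconv : Convex ℝ T) (hsol : Solid T) (h1 : (fun _ => 1 : Fin N → ℝ) ∈ T) (i : ℕ) (m : ℕ → ℕ)
    (r f : ℕ → ℝ) (hr : ∀ l < i, 0 < r l) (hm : ∀ l < i, 1 ≤ m l ∧ m l ≤ N) (hf : ∀ l < i, f l = 1 ∨ (f l = 0 ∧ m l = 1))
    (hT : ∀ l < i, ∀ S : Finset (Fin N), S.card = m l → (fun j => if j ∈ S then r l else 0) ∈ T) (t : Fin N → ℝ) (Ξ : ℝ)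
    (hΞ : 3 + ∑ l ∈ range i, 9 * 4 ^ l * ((f l + (∑ j, ind (3 * 4 ^ l) (t j)) / m l) / r l) + ∑ j, |t j| * ind (3 * 4 ^ i) (t j) ≤ Ξ) :
    ∃ s ∈ T, t = Ξ • s := by
  classical
  have hne : T.Nonempty := ⟨_, h1⟩
  have hind : ∀ X x : ℝ, 0 ≤ ind X x := by
    intro X x
    unfold ind
    split_ifs <;> norm_num
  -- the constant part
  have a1 : XP T (3 * 1) ((3 : ℝ) • (fun _ => 1 : Fin N → ℝ)) := XP.smul ⟨zero_le_one, _, h1, by simp⟩ (by norm_num)
  -- the layers
  have a2 : ∀ l ∈ range i, XP T (9 * 4 ^ l * ((f l + (∑ j, ind (3 * 4 ^ l) (t j)) / m l) / r l))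
      ((9 * 4 ^ l : ℝ) • oneS (univ.filter fun j => 3 * 4 ^ l ≤ |t j|)) := by
    intro l hl
    rw [mem_range] at hl
    have e1 : ∑ j, ind (3 * 4 ^ l) (t j) = ((univ.filter fun j => 3 * 4 ^ l ≤ |t j|).card : ℝ) := by
      unfold ind
      rw [← sum_filter, sum_const, nsmul_eq_mul, mul_one]
    rw [e1]
    exact (XP_set hconv hsol hne (hr l hl) (hm l hl).1 (hm l hl).2 (hf l hl) (hT l hl) _).smul (by positivity)
  -- the top part
  have a3 : ∀ j ∈ (univ : Finset (Fin N)), XP T (|t j| * ind (3 * 4 ^ i) (t j)) ((|t j| * ind (3 * 4 ^ i) (t j)) • oneS {j}) := by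
    intro j _
    have b1 : XP T 1 (oneS {j}) := by
      have b2 : XP T 1 (fun _ => 1 : Fin N → ℝ) := ⟨zero_le_one, _, h1, by simp⟩
      refine b2.dom hsol fun k => ?_
      unfold oneS
      split_ifs <;> simp
    have b3 := b1.smul (mul_nonneg (abs_nonneg (t j)) (hind (3 * 4 ^ i) (t j)))
    rwa [mul_one] at b3
  have a4 := (a1.add hconv (XP.sum hconv hne _ _ _ a2)).add hconv (XP.sum hconv hne _ _ _ a3)
  have a5 := (a4.mono hsol (b := Ξ) (by rw [mul_one]; exact hΞ)).dom hsol (y := t) (by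
    intro k
    refine le_trans ?_ (le_abs_self _)
    simp only [Pi.add_apply, Pi.smul_apply, smul_eq_mul, Finset.sum_apply]
    refine (layer i (t k)).trans ?_
    refine add_le_add (add_le_add ?_ ?_) ?_
    · norm_num
    · refine sum_le_sum fun l _ => ?_
      apply le_of_eq
      congr 1
      unfold ind oneS
      simp
    · rw [sum_eq_single k]
      · unfold oneS
        simp
      · intro b _ hb
        unfold oneS
        simp [hb.symm]
      · intro h
        exact absurd (mem_univ k) h)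
  exact a5.2

end Pool.Agent.Lib.MP_d2370c_gt.SY
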