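import Pool.Agent.Lib.MP_d2370c_gt.SY.Path
import Pool.Agent.Lib.MP_d2370c_gt.SY.XSide
import Pool.Agent.Lib.MP_d2370c_gt.SY.ASide
import Pool.Agent.Lib.MP_d2370c_gt.SY.Cost
import Pool.Agent.Lib.MP_d2370c_gt.SY.BaseQ
import Pool.Agent.Lib.MP_d2370c_gt.SQ.Akt
import Pool.Agent.Lib.MP_d2370c_gt.SQ.Supp

/-!
# The linear bound for polarized solid bodies, their sections and projections
-/

set_option autoImplicit false

open Finset MeasureTheory Filter Topology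

namespace Pool.Agent.Lib.MP_d2370c_gt.SY

open Pool.Agent.Lib.MP_d2370c_gt Pool.Agent.Lib.MP_d2370c_gt.SQ

variable {n d N : ℕ}

private theorem core_fl_nonneg (N : ℕ) (ε : ℝ) : 0 ≤ fl N ε := by
  unfold fl
  split_ifs
  · exact zero_le_one
  · exact le_rfl

private theorem core_pow_le {C : ℝ} (hC : 0 ≤ C) {K : ℕ} (hK : (N : ℝ) ≤ 4 ^ K) {B : ℝ} (hB : 0 ≤ B) :
    (N : ℝ) * (C * B / 4 ^ K) ≤ C * B := by
  have h4 : (0 : ℝ) < 4 ^ K := by positivity
  have h1 : (N : ℝ) * (C * B / 4 ^ K) = (N / 4 ^ K) * (C * B) := by ring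
  rw [h1]
  have h2 : (N : ℝ) / 4 ^ K ≤ 1 := (div_le_one h4).2 hK
  have h3 : 0 ≤ C * B := mul_nonneg hC hB
  calc (N : ℝ) / 4 ^ K * (C * B) ≤ 1 * (C * B) := mul_le_mul_of_nonneg_right h2 h3
    _ = C * B := one_mul _

/-- the side of the body -/
private theorem core_x {c D : ℝ} {q : ℕ} (hN : 1 ≤ N) {C : ℝ} (hC : 0 ≤ C) {T : Set (Fin N → ℝ)}
    (hconv : Convex ℝ T) (hsol : Solid T) (r : ℕ → ℝ) (hP : Pol1 c D T r) (hrN : r N = 1) {A : ℝ} (hA : 0 < A)
    (hA8 : 8 * (3 + (1 + 2 * C) * (12 * Real.sqrt (2 * D)) + C * 4 ^ q) ≤ A) (i K : ℕ) (hK : (N : ℝ) ≤ 4 ^ K) (mx : ℕ → ℕ)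
    (φ ρ : ℝ → ℝ) (hx : ∀ l < i, PX D q N r l (mx l) ∧ Maj ρ φ (ind (3 * 4 ^ l)) (2 * C * ep q l (mx l)))
    (hmom : Maj ρ φ (fun x => |x| * ind (3 * 4 ^ i) x) (C * 4 ^ q / 4 ^ K)) :
    ∃ (E : ℝ → ℝ) (θ κ : ℝ), Maj ρ φ E κ ∧ (∀ t, 0 ≤ E t) ∧ 0 ≤ θ ∧ 0 ≤ κ ∧ θ + N * κ ≤ 1 / 8 ∧
      ∀ t : Fin N → ℝ, θ + ∑ j, E (t j) ≤ 1 → ∃ s ∈ T, t = A • s := by
  have hA' : 0 ≤ A⁻¹ := (inv_pos.2 hA).le
  obtain ⟨ε, hε⟩ : ∃ ε : ℕ → ℝ, ε = fun l => ep q l (mx l) := ⟨_, rfl⟩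
  have hε0 : ∀ l, 0 < ε l := fun l => by rw [hε]; exact ep_pos _ _ _
  have hε1 : ∀ l, ε l ≤ 1 := fun l => by rw [hε]; exact ep_le_one _ _ _
  obtain ⟨m, hm⟩ : ∃ m : ℕ → ℕ, m = fun l => mm N (ε l) := ⟨_, rfl⟩
  have hmm : ∀ l, 1 ≤ m l ∧ m l ≤ N := fun l => by rw [hm]; exact mm_mem hN (hε0 l) (hε1 l)
  obtain ⟨f, hf⟩ : ∃ f : ℕ → ℝ, f = fun l => fl N (ε l) := ⟨_, rfl⟩
  have hf0 : ∀ l, 0 ≤ f l := fun l => by rw [hf]; exact core_fl_nonneg _ _
  have hr0 : ∀ l, 0 < r (m l) := fun l => (hP (m l) (hmm l).1 (hmm l).2).1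
  have hm0 : ∀ l, (0 : ℝ) < m l := fun l => by exact_mod_cast (hmm l).1
  obtain ⟨w, hw⟩ : ∃ w : ℕ → ℝ, w = fun l => 9 * 4 ^ l / (m l * r (m l)) := ⟨_, rfl⟩
  have hw0 : ∀ l, 0 ≤ w l := fun l => by
    rw [hw]
    have h1 := hm0 l
    have h2 := hr0 l
    positivity
  have h1T : (fun _ => 1 : Fin N → ℝ) ∈ T := by
    have h1 := ((hP N hN le_rfl).2 Finset.univ (by rw [Finset.card_univ, Fintype.card_fin])).1
    have h2 : (fun j : Fin N => if j ∈ (Finset.univ : Finset (Fin N)) then r N else 0) = fun _ => 1 := by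
      funext j
      rw [if_pos (Finset.mem_univ j), hrN]
    rwa [h2] at h1
  refine ⟨fun t => A⁻¹ * (∑ l ∈ range i, w l * ind (3 * 4 ^ l) t + |t| * ind (3 * 4 ^ i) t),
    A⁻¹ * (3 + ∑ l ∈ range i, 9 * 4 ^ l * (f l / r (m l))),
    A⁻¹ * (∑ l ∈ range i, w l * (2 * C * ε l) + C * 4 ^ q / 4 ^ K), ?_, ?_, ?_, ?_, ?_, ?_⟩
  · refine Maj.smul (Maj.add (Maj.sum (range i) (fun l x => w l * ind (3 * 4 ^ l) x) (fun l => w l * (2 * C * ε l)) ?_) hmom) hA'
    intro l hl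
    have h1 := (hx l (Finset.mem_range.1 hl)).2
    have h2 := Maj.smul h1 (hw0 l)
    rw [hε]
    exact h2
  · intro t
    refine mul_nonneg hA' (add_nonneg (Finset.sum_nonneg fun l _ => mul_nonneg (hw0 l) (ind_nonneg _ _)) ?_)
    exact mul_nonneg (abs_nonneg _) (ind_nonneg _ _)
  · refine mul_nonneg hA' (add_nonneg (by norm_num) (Finset.sum_nonneg fun l _ => ?_))
    have h1 := hf0 l
    have h2 := hr0 l
    positivity
  · refine mul_nonneg hA' (add_nonneg (Finset.sum_nonneg fun l _ => ?_) (by positivity))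
    have h1 := (hε0 l).le
    have h2 := hw0 l
    positivity
  · -- the sum of the costs
    have h1 : A⁻¹ * (3 + ∑ l ∈ range i, 9 * 4 ^ l * (f l / r (m l))) +
        N * (A⁻¹ * (∑ l ∈ range i, w l * (2 * C * ε l) + C * 4 ^ q / 4 ^ K)) =
        A⁻¹ * (3 + ∑ l ∈ range i, 9 * 4 ^ l * ((f l + N * (2 * C * ε l) / m l) / r (m l)) + N * (C * 4 ^ q / 4 ^ K)) := by
      have e1 : ∑ l ∈ range i, 9 * (4 : ℝ) ^ l * ((f l + N * (2 * C * ε l) / m l) / r (m l)) =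
          ∑ l ∈ range i, 9 * 4 ^ l * (f l / r (m l)) + N * ∑ l ∈ range i, w l * (2 * C * ε l) := by
        rw [Finset.mul_sum, ← Finset.sum_add_distrib]
        refine Finset.sum_congr rfl fun l _ => ?_
        rw [hw]
        have h1 := (hm0 l).ne'
        have h2 := (hr0 l).ne'
        field_simp
      rw [e1]
      ring
    rw [h1]
    have h2 : ∑ l ∈ range i, 9 * 4 ^ l * ((f l + N * (2 * C * ε l) / m l) / r (m l)) ≤
        (1 + 2 * C) * (12 * Real.sqrt (2 * D)) := by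
      have h3 : ∀ l ∈ range i, 9 * 4 ^ l * ((f l + N * (2 * C * ε l) / m l) / r (m l)) ≤
          (1 + 2 * C) * (9 * 4 ^ l * cx N r (ε l)) := by
        intro l _
        have h4 : (f l + N * (2 * C * ε l) / m l) / r (m l) ≤ (1 + 2 * C) * cx N r (ε l) := by
          have h5 := cost_x hN (hε0 l) r (by have := hr0 l; rw [hm] at this; exact this) (by positivity : 0 ≤ 2 * C)
          rw [hm, hf]
          exact h5
        have h6 : (0 : ℝ) ≤ 9 * 4 ^ l := by positivity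
        calc 9 * 4 ^ l * ((f l + N * (2 * C * ε l) / m l) / r (m l)) ≤ 9 * 4 ^ l * ((1 + 2 * C) * cx N r (ε l)) :=
              mul_le_mul_of_nonneg_left h4 h6
          _ = (1 + 2 * C) * (9 * 4 ^ l * cx N r (ε l)) := by ring
      refine (Finset.sum_le_sum h3).trans ?_
      rw [← Finset.mul_sum]
      refine mul_le_mul_of_nonneg_left ?_ (by positivity)
      refine geo i mx (fun l => cx N r (ε l)) fun l hl => ?_
      rw [hε]
      exact (hx l hl).1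
    have h3 : (N : ℝ) * (C * 4 ^ q / 4 ^ K) ≤ C * 4 ^ q := core_pow_le hC hK (by positivity)
    have h4 : 3 + ∑ l ∈ range i, 9 * 4 ^ l * ((f l + N * (2 * C * ε l) / m l) / r (m l)) + N * (C * 4 ^ q / 4 ^ K) ≤ A / 8 := by
      linarith
    calc A⁻¹ * _ ≤ A⁻¹ * (A / 8) := mul_le_mul_of_nonneg_left h4 hA'
      _ = 1 / 8 := by field_simp
  · intro t ht
    refine xside hconv hsol h1T i m (fun l => r (m l)) f (fun l _ => hr0 l) (fun l _ => hmm l) (fun l _ => ?_)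
      (fun l _ S hS => ((hP (m l) (hmm l).1 (hmm l).2).2 S hS).1) t A ?_
    · rw [hf, hm]
      exact fl_cases
    · have h1 : 3 + ∑ l ∈ range i, 9 * 4 ^ l * ((f l + (∑ j, ind (3 * 4 ^ l) (t j)) / m l) / r (m l)) +
          ∑ j, |t j| * ind (3 * 4 ^ i) (t j) =
          A * (A⁻¹ * (3 + ∑ l ∈ range i, 9 * 4 ^ l * (f l / r (m l))) +
            ∑ j, A⁻¹ * (∑ l ∈ range i, w l * ind (3 * 4 ^ l) (t j) + |t j| * ind (3 * 4 ^ i) (t j))) := by
        rw [← Finset.mul_sum, ← mul_add, ← mul_assoc, mul_inv_cancel₀ hA.ne', one_mul, Finset.sum_add_distrib, Finset.sum_comm]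
        have e1 : ∑ l ∈ range i, 9 * (4 : ℝ) ^ l * ((f l + (∑ j, ind (3 * 4 ^ l) (t j)) / m l) / r (m l)) =
            ∑ l ∈ range i, 9 * 4 ^ l * (f l / r (m l)) + ∑ l ∈ range i, ∑ j, w l * ind (3 * 4 ^ l) (t j) := by
          rw [← Finset.sum_add_distrib]
          refine Finset.sum_congr rfl fun l _ => ?_
          rw [← Finset.mul_sum, hw]
          have h1 := (hm0 l).ne'
          have h2 := (hr0 l).ne'
          field_simp
        rw [e1]
        ring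
      rw [h1]
      calc A * _ ≤ A * 1 := mul_le_mul_of_nonneg_left ht hA.le
        _ = A := mul_one A

/-- the dual side -/
private theorem core_c {c D : ℝ} (hc : 0 < c) (hc1 : c ≤ 1) (hD : 1 ≤ D) {q : ℕ} (hq : 3 ≤ 2 * q * c) (hN : 1 ≤ N)
    {C : ℝ} (hC : 0 ≤ C) {T : Set (Fin N → ℝ)}
    (r : ℕ → ℝ) (hP : Pol1 c D T r) (hrN : r N = 1) {A : ℝ} (hA : 0 < A)
    (hA8 : 8 * (3 * D + (1 + 2 * C) * (12 * Real.sqrt (2 * D)) + D * (C * 4 ^ q)) ≤ A) (a K : ℕ) (hK : (N : ℝ) ≤ 4 ^ K) (ma : ℕ → ℕ)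
    (φ ρ : ℝ → ℝ) (hx : ∀ l < a, ¬ PX D q N r (ma l) l ∧ Maj φ ρ (ind (3 * 4 ^ l)) (2 * C * ep q (ma l) l))
    (hmom : Maj φ ρ (fun x => |x| * ind (3 * 4 ^ a) x) (C * 4 ^ q / 4 ^ K)) :
    ∃ (E : ℝ → ℝ) (θ κ : ℝ), Maj φ ρ E κ ∧ (∀ t, 0 ≤ E t) ∧ 0 ≤ θ ∧ 0 ≤ κ ∧ θ + N * κ ≤ 1 / 8 ∧
      ∀ c' t : Fin N → ℝ, t ∈ T → ∑ j, |t j| * |c' j| ≤ A * N * (θ + ∑ j, E (c' j)) := by
  have hA' : 0 ≤ A⁻¹ := (inv_pos.2 hA).le
  have hD0 : 0 ≤ D := by linarith
  have hN0 : (0 : ℝ) < N := by exact_mod_cast hN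
  obtain ⟨ε, hε⟩ : ∃ ε : ℕ → ℝ, ε = fun l => ep q (ma l) l := ⟨_, rfl⟩
  have hε0 : ∀ l, 0 < ε l := fun l => by rw [hε]; exact ep_pos _ _ _
  have hε1 : ∀ l, ε l ≤ 1 := fun l => by rw [hε]; exact ep_le_one _ _ _
  obtain ⟨m, hm⟩ : ∃ m : ℕ → ℕ, m = fun l => mm N (ε l) := ⟨_, rfl⟩
  have hmm : ∀ l, 1 ≤ m l ∧ m l ≤ N := fun l => by rw [hm]; exact mm_mem hN (hε0 l) (hε1 l)
  obtain ⟨f, hf⟩ : ∃ f : ℕ → ℝ, f = fun l => fl N (ε l) := ⟨_, rfl⟩
  have hf0 : ∀ l, 0 ≤ f l := fun l => by rw [hf]; exact core_fl_nonneg _ _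
  have hr0 : ∀ l, 0 < r (m l) := fun l => (hP (m l) (hmm l).1 (hmm l).2).1
  have hm0 : ∀ l, (0 : ℝ) < m l := fun l => by exact_mod_cast (hmm l).1
  obtain ⟨g, hg⟩ : ∃ g : ℕ → ℝ, g = fun l => ga c D N r (m l) := ⟨_, rfl⟩
  have hg0 : ∀ l, 0 ≤ g l := fun l => by
    rw [hg]
    unfold ga
    have h1 := (hr0 l).le
    have h2 : (0 : ℝ) ≤ ((m l : ℝ) / N) ^ c := Real.rpow_nonneg (by have := (hm0 l).le; positivity) _
    positivity
  obtain ⟨w, hw⟩ : ∃ w : ℕ → ℝ, w = fun l => 9 * 4 ^ l * g l / m l := ⟨_, rfl⟩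
  have hw0 : ∀ l, 0 ≤ w l := fun l => by
    rw [hw]
    have h1 := hm0 l
    have h2 := hg0 l
    positivity
  refine ⟨fun t => A⁻¹ * (∑ l ∈ range a, w l * ind (3 * 4 ^ l) t + D * (|t| * ind (3 * 4 ^ a) t)),
    A⁻¹ * (3 * D + ∑ l ∈ range a, 9 * 4 ^ l * (f l * g l)),
    A⁻¹ * (∑ l ∈ range a, w l * (2 * C * ε l) + D * (C * 4 ^ q / 4 ^ K)), ?_, ?_, ?_, ?_, ?_, ?_⟩
  · refine Maj.smul (Maj.add (Maj.sum (range a) (fun l x => w l * ind (3 * 4 ^ l) x) (fun l => w l * (2 * C * ε l)) ?_)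
      (Maj.smul hmom hD0)) hA'
    intro l hl
    have h1 := (hx l (Finset.mem_range.1 hl)).2
    have h2 := Maj.smul h1 (hw0 l)
    rw [hε]
    exact h2
  · intro t
    refine mul_nonneg hA' (add_nonneg (Finset.sum_nonneg fun l _ => mul_nonneg (hw0 l) (ind_nonneg _ _)) ?_)
    exact mul_nonneg hD0 (mul_nonneg (abs_nonneg _) (ind_nonneg _ _))
  · refine mul_nonneg hA' (add_nonneg (by positivity) (Finset.sum_nonneg fun l _ => ?_))
    have h1 := hf0 l
    have h2 := hg0 l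
    positivity
  · refine mul_nonneg hA' (add_nonneg (Finset.sum_nonneg fun l _ => ?_) (by positivity))
    have h1 := (hε0 l).le
    have h2 := hw0 l
    positivity
  · have h1 : A⁻¹ * (3 * D + ∑ l ∈ range a, 9 * 4 ^ l * (f l * g l)) +
        N * (A⁻¹ * (∑ l ∈ range a, w l * (2 * C * ε l) + D * (C * 4 ^ q / 4 ^ K))) =
        A⁻¹ * (3 * D + ∑ l ∈ range a, 9 * 4 ^ l * ((f l + N * (2 * C * ε l) / m l) * g l) + D * (N * (C * 4 ^ q / 4 ^ K))) := by
      have e1 : ∑ l ∈ range a, 9 * (4 : ℝ) ^ l * ((f l + N * (2 * C * ε l) / m l) * g l) =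
          ∑ l ∈ range a, 9 * 4 ^ l * (f l * g l) + N * ∑ l ∈ range a, w l * (2 * C * ε l) := by
        rw [Finset.mul_sum, ← Finset.sum_add_distrib]
        refine Finset.sum_congr rfl fun l _ => ?_
        rw [hw]
        have h1 := (hm0 l).ne'
        field_simp
      rw [e1]
      ring
    rw [h1]
    have h2 : ∑ l ∈ range a, 9 * 4 ^ l * ((f l + N * (2 * C * ε l) / m l) * g l) ≤
        (1 + 2 * C) * (12 * Real.sqrt (2 * D)) := by
      have h3 : ∀ l ∈ range a, 9 * 4 ^ l * ((f l + N * (2 * C * ε l) / m l) * g l) ≤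
          (1 + 2 * C) * (9 * 4 ^ l * cc c D N r (ε l)) := by
        intro l _
        have h4 : (f l + N * (2 * C * ε l) / m l) * g l ≤ (1 + 2 * C) * cc c D N r (ε l) := by
          have h5 := cost_c (c := c) hD hN (hε0 l) r (by have := hr0 l; rw [hm] at this; exact this) (by positivity : 0 ≤ 2 * C)
          rw [hg, hm, hf]
          exact h5
        have h6 : (0 : ℝ) ≤ 9 * 4 ^ l := by positivity
        calc 9 * 4 ^ l * ((f l + N * (2 * C * ε l) / m l) * g l) ≤ 9 * 4 ^ l * ((1 + 2 * C) * cc c D N r (ε l)) :=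
              mul_le_mul_of_nonneg_left h4 h6
          _ = (1 + 2 * C) * (9 * 4 ^ l * cc c D N r (ε l)) := by ring
      refine (Finset.sum_le_sum h3).trans ?_
      rw [← Finset.mul_sum]
      refine mul_le_mul_of_nonneg_left ?_ (by positivity)
      refine geo a ma (fun l => cc c D N r (ε l)) fun l hl => ?_
      have h5 := dich (c := c) hc hc1 hD hq hN r (ma l) l (by have := hr0 l; rw [hm, hε] at this; exact this) (hx l hl).1
      rw [hε, add_comm l (ma l)]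
      exact h5
    have h3 : (N : ℝ) * (C * 4 ^ q / 4 ^ K) ≤ C * 4 ^ q := core_pow_le hC hK (by positivity)
    have h3' : D * ((N : ℝ) * (C * 4 ^ q / 4 ^ K)) ≤ D * (C * 4 ^ q) := mul_le_mul_of_nonneg_left h3 hD0
    have h4 : 3 * D + ∑ l ∈ range a, 9 * 4 ^ l * ((f l + N * (2 * C * ε l) / m l) * g l) + D * (N * (C * 4 ^ q / 4 ^ K)) ≤
        A / 8 := by
      linarith
    calc A⁻¹ * _ ≤ A⁻¹ * (A / 8) := mul_le_mul_of_nonneg_left h4 hA'
      _ = 1 / 8 := by field_simp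
  · intro c' t ht
    have h1 := aside (T := T) a m (fun l => N * g l) f (N * D) (fun l _ => hmm l) (fun l _ => by rw [hf, hm]; exact fl_cases)
      (fun l _ S hS t ht => by
        have h2 := ((hP (m l) (hmm l).1 (hmm l).2).2 S hS).2 t ht
        rw [hg]
        exact h2)
      (fun t ht => by
        have h2 := ((hP N hN le_rfl).2 Finset.univ (by rw [Finset.card_univ, Fintype.card_fin])).2 t ht
        rw [hrN, div_self hN0.ne', Real.one_rpow, mul_one, mul_one] at h2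
        exact h2) c' t ht
    refine h1.trans (le_of_eq ?_)
    have h2 : A * N * (A⁻¹ * (3 * D + ∑ l ∈ range a, 9 * 4 ^ l * (f l * g l)) +
        ∑ j, A⁻¹ * (∑ l ∈ range a, w l * ind (3 * 4 ^ l) (c' j) + D * (|c' j| * ind (3 * 4 ^ a) (c' j)))) =
        N * (3 * D + ∑ l ∈ range a, 9 * 4 ^ l * (f l * g l) +
          (∑ l ∈ range a, w l * ∑ j, ind (3 * 4 ^ l) (c' j) + D * ∑ j, |c' j| * ind (3 * 4 ^ a) (c' j))) := by
      rw [← Finset.mul_sum, ← mul_add]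
      have e1 : A * N * (A⁻¹ * (3 * D + ∑ l ∈ range a, 9 * 4 ^ l * (f l * g l) +
          ∑ j, (∑ l ∈ range a, w l * ind (3 * 4 ^ l) (c' j) + D * (|c' j| * ind (3 * 4 ^ a) (c' j))))) =
          (A * A⁻¹) * (N * (3 * D + ∑ l ∈ range a, 9 * 4 ^ l * (f l * g l) +
          ∑ j, (∑ l ∈ range a, w l * ind (3 * 4 ^ l) (c' j) + D * (|c' j| * ind (3 * 4 ^ a) (c' j))))) := by ring
      rw [e1, mul_inv_cancel₀ hA.ne', one_mul, Finset.sum_add_distrib, Finset.sum_comm, ← Finset.mul_sum]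
      simp_rw [← Finset.mul_sum]
    rw [h2]
    have e2 : ∑ l ∈ range a, 9 * (4 : ℝ) ^ l * ((f l + (∑ j, ind (3 * 4 ^ l) (c' j)) / m l) * (N * g l)) =
        N * (∑ l ∈ range a, 9 * 4 ^ l * (f l * g l) + ∑ l ∈ range a, w l * ∑ j, ind (3 * 4 ^ l) (c' j)) := by
      rw [← Finset.sum_add_distrib, Finset.mul_sum]
      refine Finset.sum_congr rfl fun l _ => ?_
      rw [hw]
      have h1 := (hm0 l).ne'
      field_simp
    rw [e2]
    ring

private theorem core_lin_smul (u : Fin N → Fin n → ℝ) (a : ℝ) (x : Fin n → ℝ) : lin u (a • x) = a • lin u x := by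
  funext i
  simp only [lin, Pi.smul_apply, smul_eq_mul, Finset.mul_sum]
  exact Finset.sum_congr rfl fun k _ => by ring

private theorem core_lin_add (u : Fin N → Fin n → ℝ) (x y : Fin n → ℝ) : lin u (x + y) = lin u x + lin u y := by
  funext i
  simp only [lin, Pi.add_apply, mul_add, Finset.sum_add_distrib]

private theorem core_lin_scale (u : Fin N → Fin n → ℝ) (a : ℝ) (x : Fin n → ℝ) :
    lin (fun j k => a * u j k) x = a • lin u x := by
  funext i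
  simp only [lin, Pi.smul_apply, smul_eq_mul, Finset.mul_sum]
  exact Finset.sum_congr rfl fun k _ => by ring

/-- the interior point -/
private theorem core_interior (K : Set (Fin d → ℝ)) (hK : Convex ℝ K) {T : Set (Fin N → ℝ)} (hconv : Convex ℝ T) (hsol : Solid T)
    (u : Fin N → Fin n → ℝ) (v : Fin n → Fin d → ℝ) (x0 : Fin d → ℝ) (M : ℝ) (hM : 0 ≤ M)
    (hin : ∀ x : Fin n → ℝ, lin u x ∈ T → XX x0 v x ∈ K) (x1 : Fin n → ℝ) (s1 : Fin N → ℝ) (hs1 : s1 ∈ T)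
    (h1 : lin u x1 = M • s1) (hint : XX x0 v x1 ∈ interior K) (x : Fin n → ℝ) (s : Fin N → ℝ) (hs : s ∈ T)
    (hx : lin u x = (1 / 2 : ℝ) • s) : XX x0 v x ∈ interior K := by
  have hp1 : 0 < 1 + 2 * M := by linarith
  have hp2 : 0 < 2 + 2 * M := by linarith
  -- the point on the other side
  have hx2 : XX x0 v (((2 + 2 * M) / (1 + 2 * M)) • x + (-(1 / (1 + 2 * M))) • x1) ∈ K := by
    refine hin _ ?_
    rw [core_lin_add, core_lin_smul, core_lin_smul, hx, h1]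
    have hn : (-s1) ∈ T := hsol s1 hs1 (-s1) fun j => by rw [Pi.neg_apply, abs_neg]
    have e1 : ((2 + 2 * M) / (1 + 2 * M)) • ((1 / 2 : ℝ) • s) + (-(1 / (1 + 2 * M))) • (M • s1) =
        ((1 + M) / (1 + 2 * M)) • s + (M / (1 + 2 * M)) • (-s1) := by
      funext j
      simp only [Pi.add_apply, Pi.smul_apply, Pi.neg_apply, smul_eq_mul]
      field_simp
    rw [e1]
    refine hconv hs hn (by positivity) (by positivity) ?_
    field_simp
    ring
  have hcomb : XX x0 v x = (1 / (2 + 2 * M)) • XX x0 v x1 +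
      ((1 + 2 * M) / (2 + 2 * M)) • XX x0 v (((2 + 2 * M) / (1 + 2 * M)) • x + (-(1 / (1 + 2 * M))) • x1) := by
    funext i
    simp only [XX, Pi.add_apply, Pi.smul_apply, smul_eq_mul]
    have e1 : ∑ j, ((2 + 2 * M) / (1 + 2 * M) * x j + -(1 / (1 + 2 * M)) * x1 j) * v j i =
        (2 + 2 * M) / (1 + 2 * M) * ∑ j, x j * v j i + -(1 / (1 + 2 * M)) * ∑ j, x1 j * v j i := by
      rw [Finset.mul_sum, Finset.mul_sum, ← Finset.sum_add_distrib]
      exact Finset.sum_congr rfl fun j _ => by ring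
    rw [e1]
    field_simp
    ring
  rw [hcomb]
  refine hK.combo_interior_self_mem_interior hint hx2 (by positivity) (by positivity) ?_
  field_simp
  ring

private theorem core_dpos (K : Set (Fin d → ℝ)) (hint : (interior K).Nonempty)
    (hfree : ∀ z : Fin d → ℤ, (fun i => (z i : ℝ)) ∉ interior K) : 0 < d := by
  rcases Nat.eq_zero_or_pos d with h0 | h0
  · exfalso
    subst h0
    obtain ⟨p, hp⟩ := hint
    refine hfree 0 ?_
    have : (fun i => (((0 : Fin 0 → ℤ) i : ℤ) : ℝ)) = p := Subsingleton.elim _ _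
    rw [this]
    exact hp
  · exact h0

/-- the degenerate cases -/
private theorem core_point (K : Set (Fin d → ℝ)) (hd : 0 < d) (p : Fin d → ℝ) (hK : ∀ z ∈ K, z = p) (B : ℝ) (hB : 0 ≤ B) :
    ∃ y : Fin d → ℤ, y ≠ 0 ∧ ∀ z ∈ K, ∀ z' ∈ K, ∑ i, (z i - z' i) * (y i : ℝ) ≤ B := by
  refine ⟨fun _ => 1, ?_, fun z hz z' hz' => ?_⟩
  · intro h0
    have := congrFun h0 ⟨0, hd⟩
    simp at this
  · rw [hK z hz, hK z' hz']
    simpa using hB

/-- the width is at most twice the support function -/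
private theorem core_width {T : Set (Fin N → ℝ)} (hsol : Solid T) {K : Set (Fin d → ℝ)} (u : Fin N → Fin n → ℝ)
    (hC : IsCompact {x : Fin n → ℝ | lin u x ∈ T}) (v : Fin n → Fin d → ℝ) (x0 : Fin d → ℝ) (M : ℝ) (hM : 0 < M)
    (hout : ∀ z ∈ K, ∃ x : Fin n → ℝ, (∃ s ∈ T, lin u x = M • s) ∧ z = XX x0 v x) (y : Fin d → ℝ) (z z' : Fin d → ℝ)
    (hz : z ∈ K) (hz' : z' ∈ K) :
    ∑ i, (z i - z' i) * y i ≤ 2 * M * supp {x : Fin n → ℝ | lin u x ∈ T} (pr v y) := by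
  have key : ∀ (x : Fin n → ℝ) (s : Fin N → ℝ), s ∈ T → lin u x = M • s →
      ∑ k, x k * pr v y k ≤ M * supp {x : Fin n → ℝ | lin u x ∈ T} (pr v y) := by
    intro x s hs hx
    have h1 : (M⁻¹ • x) ∈ {x : Fin n → ℝ | lin u x ∈ T} := by
      rw [Set.mem_ofPred_eq, core_lin_smul, hx, smul_smul, inv_mul_cancel₀ hM.ne', one_smul]
      exact hs
    have h2 := le_supp hC (pr v y) h1
    have h3 : ∑ k, (M⁻¹ • x) k * pr v y k = M⁻¹ * ∑ k, x k * pr v y k := by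
      rw [Finset.mul_sum]
      exact Finset.sum_congr rfl fun k _ => by rw [Pi.smul_apply, smul_eq_mul]; ring
    rw [h3] at h2
    calc ∑ k, x k * pr v y k = M * (M⁻¹ * ∑ k, x k * pr v y k) := by rw [← mul_assoc, mul_inv_cancel₀ hM.ne', one_mul]
      _ ≤ _ := mul_le_mul_of_nonneg_left h2 hM.le
  obtain ⟨x, ⟨s, hs, hx⟩, rfl⟩ := hout z hz
  obtain ⟨x', ⟨s', hs', hx'⟩, rfl⟩ := hout z' hz'
  have e2 : ∑ i, (XX x0 v x i - XX x0 v x' i) * y i = ∑ k, x k * pr v y k + ∑ k, (-x') k * pr v y k := by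
    have h1 := sum_XX x0 v x y
    have h2 := sum_XX x0 v x' y
    have h3 : ∑ i, (XX x0 v x i - XX x0 v x' i) * y i = ∑ i, y i * XX x0 v x i - ∑ i, y i * XX x0 v x' i := by
      rw [← Finset.sum_sub_distrib]
      exact Finset.sum_congr rfl fun i _ => by ring
    have h4 : ∑ k, (-x') k * pr v y k = -∑ k, x' k * pr v y k := by
      rw [← Finset.sum_neg_distrib]
      exact Finset.sum_congr rfl fun k _ => by rw [Pi.neg_apply]; ring
    rw [h3, h1, h2, h4]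
    ring
  have h5 := key x s hs hx
  have h6 := key (-x') (-s') (hsol s' hs' (-s') fun j => by rw [Pi.neg_apply, abs_neg]) (by
    have h7 : (-x') = (-1 : ℝ) • x' := by rw [neg_smul, one_smul]
    rw [h7, core_lin_smul, hx', smul_neg, neg_smul, one_smul])
  rw [e2]
  linarith

theorem core (c D : ℝ) (hc : 0 < c) (hc1 : c ≤ 1) (hD : 1 ≤ D) : ∃ C : ℝ, 0 ≤ C ∧ ∀ (n N d : ℕ) (T : Set (Fin N → ℝ)), IsCompact T →
    Convex ℝ T → Solid T → ∀ r : ℕ → ℝ, Pol1 c D T r → r N = 1 → ∀ K : Set (Fin d → ℝ), Convex ℝ K → (interior K).Nonempty →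
    (∀ z : Fin d → ℤ, (fun i => (z i : ℝ)) ∉ interior K) → ∀ u : Fin N → Fin n → ℝ, Inj u → ∀ (v : Fin n → Fin d → ℝ) (x0 : Fin d → ℝ)
    (M : ℝ), 0 ≤ M → (∀ x : Fin n → ℝ, lin u x ∈ T → XX x0 v x ∈ K) →
    (∀ z ∈ K, ∃ x : Fin n → ℝ, (∃ s ∈ T, lin u x = M • s) ∧ z = XX x0 v x) →
    ∃ y : Fin d → ℤ, y ≠ 0 ∧ ∀ z ∈ K, ∀ z' ∈ K, ∑ i, (z i - z' i) * (y i : ℝ) ≤ C * M * N := by
  have hD0 : 0 ≤ D := by linarith
  obtain ⟨q, hq⟩ : ∃ q : ℕ, q = ⌈3 / (2 * c)⌉₊ := ⟨_, rfl⟩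
  have hq3 : 3 ≤ 2 * (q : ℝ) * c := by
    have h1 : 3 / (2 * c) ≤ q := by rw [hq]; exact Nat.le_ceil _
    rw [div_le_iff₀ (by positivity)] at h1
    linarith
  have hq1 : 1 ≤ q := by
    rw [hq]
    exact Nat.ceil_pos.2 (by positivity)
  obtain ⟨C, b, κ, b1, κ1, hC, hB⟩ := exists_base q hq1
  obtain ⟨A, hAdef⟩ : ∃ A : ℝ, A = 8 * (3 * D + (1 + 2 * C) * (12 * Real.sqrt (2 * D)) + D * (C * 4 ^ q)) := ⟨_, rfl⟩
  have hsq : 0 ≤ Real.sqrt (2 * D) := Real.sqrt_nonneg _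
  have hA : 0 < A := by
    rw [hAdef]
    have : 0 < D := by linarith
    positivity
  have hA8 : 8 * (3 + (1 + 2 * C) * (12 * Real.sqrt (2 * D)) + C * 4 ^ q) ≤ A := by
    rw [hAdef]
    have h1 : C * 4 ^ q ≤ D * (C * 4 ^ q) := by
      have : 0 ≤ C * (4 : ℝ) ^ q := by positivity
      nlinarith
    linarith
  refine ⟨4 * A ^ 2, by positivity, ?_⟩
  intro n N d T hT hconv hsol r hP hrN K hK hint hfree u hu v x0 M hM hin hout
  have hd := core_dpos K hint hfree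
  -- the degenerate cases
  rcases Nat.eq_zero_or_pos N with hN0 | hN
  · subst hN0
    refine core_point K hd x0 (fun z hz => ?_) _ (by positivity)
    obtain ⟨x, -, rfl⟩ := hout z hz
    have hx0 : x = 0 := hu x (Subsingleton.elim _ _)
    rw [hx0]
    funext i
    simp [XX]
  rcases hM.eq_or_lt with hM0 | hMpos
  · refine core_point K hd x0 (fun z hz => ?_) _ (by positivity)
    obtain ⟨x, ⟨s, -, hs⟩, rfl⟩ := hout z hz
    have hx0 : x = 0 := hu x (by rw [hs, ← hM0, zero_smul])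
    rw [hx0]
    funext i
    simp [XX]
  by_contra hcon
  push Not at hcon
  have hNpos : (0 : ℝ) < N := by exact_mod_cast hN
  -- the path
  obtain ⟨L, hL⟩ : ∃ L : ℕ, (N : ℝ) ≤ 4 ^ L := by
    obtain ⟨L, hL⟩ := pow_unbounded_of_one_lt (N : ℝ) (show (1 : ℝ) < 4 by norm_num)
    exact ⟨L, hL.le⟩
  obtain ⟨i, a, mx, ma, φ, ρ, -, hpair, hφ0, hρ0, hρ1, hx, ha, hm1, hm2⟩ := path' hq1 hC hB (PX D q N r) L
  obtain ⟨E2, θ2, κ2, ⟨ρ2, h2, hp2, hE2, hκ2⟩, hE20, hθ20, hκ20, hs2, hT2⟩ :=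
    core_x hN hC hconv hsol r hP hrN hA hA8 i L hL mx φ ρ hx hm1
  obtain ⟨E, θ, κ', ⟨h1, ρ1, hp1, hE, hκ1⟩, hE0, hθ0, hκ0, hs1, hT1⟩ :=
    core_c hc hc1 hD hq3 hN hC r hP hrN hA hAdef.ge a L hL ma φ ρ ha hm2
  -- the body in the space of parameters
  have hCc : IsCompact {x : Fin n → ℝ | lin u x ∈ T} := compact_pre hu hT
  have h1T : (fun j : Fin N => if j ∈ (Finset.univ : Finset (Fin N)) then r N else 0) ∈ T :=
    ((hP N hN le_rfl).2 Finset.univ (by rw [Finset.card_univ, Fintype.card_fin])).1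
  have h0T : (0 : Fin N → ℝ) ∈ T := hsol _ h1T 0 fun j => by
    rw [Pi.zero_apply, abs_zero]
    exact abs_nonneg _
  have hCne : {x : Fin n → ℝ | lin u x ∈ T}.Nonempty := by
    refine ⟨0, ?_⟩
    rw [Set.mem_ofPred_eq]
    have : lin u (0 : Fin n → ℝ) = 0 := by
      funext i
      simp [lin]
    rw [this]
    exact h0T
  obtain ⟨Ch, hCh⟩ := supp_bd hCc hCne
  have h2A : 2 * A ≠ 0 := by positivity
  have hu' : Inj (fun j k => 2 * A * u j k) := by
    intro x hx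
    rw [core_lin_scale] at hx
    exact hu x (by
      rcases smul_eq_zero.1 hx with h | h
      · exact absurd h h2A
      · exact h)
  have hN1 : N * κ' ≤ 1 / 8 := by linarith
  have hN2 : N * κ2 ≤ 1 / 8 := by linarith
  have hNκ' : 0 ≤ N * κ' := by positivity
  have hNκ2 : 0 ≤ N * κ2 := by positivity
  have hθ8 : θ ≤ 1 / 8 := by linarith
  have hθ28 : θ2 ≤ 1 / 8 := by linarith
  obtain ⟨z, x, hxT, hxz⟩ := akt hu' x0 v φ ρ hpair hφ0 hρ0 hρ1 h1 ρ1 hp1 E hE0 hE θ κ' hθ0 (by linarith)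
    (fun t => (le_abs_self _).trans (hκ1 t)) (supp {x : Fin n → ℝ | lin u x ∈ T}) Ch (supp_add hCc hCne) hCh (2 * A ^ 2 * N)
    (by
      intro c' hc'
      by_contra hlt
      push Not at hlt
      have h3 : supp {x : Fin n → ℝ | lin u x ∈ T} (fun k => -linT (fun j k => 2 * A * u j k) c' k) ≤
          2 * A * (A * N * (θ + ∑ j, E (c' j))) := by
        refine supp_le hCne _ fun x hx => ?_
        have e1 : ∑ k, x k * -linT (fun j k => 2 * A * u j k) c' k = -(2 * A * ∑ j, c' j * lin u x j) := by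
          have e2 := lin_linT (fun j k => 2 * A * u j k) c' x
          rw [core_lin_scale] at e2
          have e3 : ∑ k, x k * -linT (fun j k => 2 * A * u j k) c' k = -∑ k, x k * linT (fun j k => 2 * A * u j k) c' k := by
            rw [← Finset.sum_neg_distrib]
            exact Finset.sum_congr rfl fun k _ => by ring
          rw [e3, e2, Finset.mul_sum]
          congr 1
          exact Finset.sum_congr rfl fun j _ => by rw [Pi.smul_apply, smul_eq_mul]; ring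
        rw [e1]
        have h4 := hT1 c' (lin u x) hx
        have h5 : -∑ j, c' j * lin u x j ≤ ∑ j, |lin u x j| * |c' j| := by
          rw [← Finset.sum_neg_distrib]
          refine Finset.sum_le_sum fun j _ => ?_
          rw [← abs_mul, mul_comm (lin u x j)]
          exact neg_le_abs _
        have h6 : 0 < 2 * A := by positivity
        have h7 := mul_le_mul_of_nonneg_left (h5.trans h4) h6.le
        linarith
      have h4 : 2 * A * (A * N * (θ + ∑ j, E (c' j))) < 2 * A * (A * N * 1) := by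
        have h6 : 0 < A * N := by positivity
        have h7 : 0 < 2 * A := by positivity
        exact mul_lt_mul_of_pos_left (mul_lt_mul_of_pos_left hlt h6) h7
      have h5 : 2 * A * (A * N * 1) = 2 * A ^ 2 * N := by ring
      linarith)
    (by
      intro y hy
      obtain ⟨z, hz, z', hz', hlt⟩ := hcon y hy
      have h3 := core_width hsol u hCc v x0 M hMpos hout (fun i => (y i : ℝ)) z z' hz hz'
      have h4 : 4 * A ^ 2 * M * N < 2 * M * supp {x : Fin n → ℝ | lin u x ∈ T} (pr v fun i => (y i : ℝ)) := hlt.trans_le h3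
      have h5 : 2 * M * (2 * A ^ 2 * N) < 2 * M * supp {x : Fin n → ℝ | lin u x ∈ T} (pr v fun i => (y i : ℝ)) := by
        calc 2 * M * (2 * A ^ 2 * N) = 4 * A ^ 2 * M * N := by ring
          _ < _ := h4
      exact lt_of_mul_lt_mul_left h5 (by positivity))
    h2 ρ2 hp2.symm E2 hE20 hE2 θ2 κ2 hθ20 (by linarith) hκ2
    ((fun s => A • s) '' T) (hT.image (continuous_const_smul A))
    (by
      intro t ht
      by_contra hlt
      push Not at hlt
      obtain ⟨s, hs, hts⟩ := hT2 t hlt.le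
      exact ht ⟨s, hs, hts.symm⟩)
    (1 / 4) (by linarith) (by norm_num) (by linarith)
  -- the integer point is interior
  obtain ⟨s, hs, hsx⟩ := hxT
  rw [core_lin_scale] at hsx
  have hx2 : lin u x = (1 / 2 : ℝ) • s := by
    have h3 : (2 * A)⁻¹ • ((2 * A) • lin u x) = (2 * A)⁻¹ • (A • s) := by rw [← hsx]
    rw [smul_smul, inv_mul_cancel₀ h2A, one_smul, smul_smul] at h3
    rw [h3]
    congr 1
    field_simp
  obtain ⟨p, hp⟩ := hint
  obtain ⟨x1, ⟨s1, hs1T, hx1⟩, hpx⟩ := hout p (interior_subset hp)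
  rw [hpx] at hp
  have hfin := core_interior K hK hconv hsol u v x0 M hM hin x1 s1 hs1T hx1 hp x s hs hx2
  rw [hxz] at hfin
  exact hfree z hfin

end Pool.Agent.Lib.MP_d2370c_gt.SY
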