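import Mathlib
import Pool.Agent.Lib.MP_d2370c_gt.SQ.Defs

/-!
# Symmetric and unconditional bodies: definitions

`Maj f F E κ`: the function `E * f` has a majorant whose Fourier transform is at most `κ * F` in absolute value.
`BaseQ`: a window with polynomially decaying transform. `St`: the state of the construction of the kernel.
`Pol1 c D T r`: the body `T` contains `r k • 1_S` for `|S| = k`, and `∑_S |t j| ≤ N D r k (k / N) ^ c` on `T`.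
-/

set_option autoImplicit false

open Finset MeasureTheory

namespace Pool.Agent.Lib.MP_d2370c_gt.SY

open Pool.Agent.Lib.MP_d2370c_gt Pool.Agent.Lib.MP_d2370c_gt.SQ

/-- a majorant of `E * f` with Fourier transform dominated by `κ * F` -/
def Maj (f F E : ℝ → ℝ) (κ : ℝ) : Prop :=
  ∃ g G : ℝ → ℝ, FP g G ∧ (∀ x, E x * f x ≤ g x) ∧ ∀ t, |G t| ≤ κ * F t

/-- indicator of `X ≤ |x|` -/
noncomputable def ind (X x : ℝ) : ℝ := if X ≤ |x| then 1 else 0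

/-- rescaled density -/
noncomputable def sc (s : ℝ) (b : ℝ → ℝ) (x : ℝ) : ℝ := s * b (s * x)

/-- a window `κ` and its transform `b` -/
structure BaseQ (q : ℕ) (C : ℝ) (b κ b1 κ1 : ℝ → ℝ) : Prop where
  pair : FP b κ
  pair1 : FP b1 κ1
  b0 : ∀ x, 0 ≤ b x
  k0 : ∀ t, 0 ≤ κ t
  kpos : 0 < κ 0
  out : ∀ t, 1 ≤ |t| → κ t = 0
  dec : ∀ x, x ^ (2 * q) * b x ≤ b1 x
  k1 : ∀ t, |κ1 t| ≤ C * κ t

/-- the state after a path of length `i + a` -/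
structure St (q : ℕ) (C : ℝ) (i a : ℕ) (f F : ℝ → ℝ) (mx ma : ℕ → ℕ) : Prop where
  pair : FP f F
  f0 : ∀ x, 0 ≤ f x
  F0 : ∀ t, 0 ≤ F t
  pos : 0 < F 0
  out : ∀ t, (4 : ℝ) ^ a ≤ |t| → F t = 0
  run : ∀ X : ℝ, 4 ^ i ≤ X → Maj f F (ind (2 * X)) (C / (X * 4 ^ a) ^ (2 * q))
  mom : Maj f F (fun x => x ^ (2 * q) * ind (2 * 4 ^ i) x) (C * 4 ^ q / 4 ^ (2 * q * a))
  rx : ∀ l < i, mx l ≤ a ∧ Maj f F (ind (4 ^ l * (3 - (1 / 2) ^ (a - mx l))))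
    (C * (2 - (1 / 2) ^ (a - mx l)) / 4 ^ (2 * q * (l + mx l)))
  ra : ∀ l < a, ma l < i ∧ Maj F f (ind (4 ^ l * (3 - 2 * (1 / 2) ^ (i - ma l))))
    (C * (2 - 2 * (1 / 2) ^ (i - ma l)) / 4 ^ (2 * q * (l + ma l)))

/-- tail parameter at the point `(i, a)` -/
noncomputable def ep (q i a : ℕ) : ℝ := (1 / 4) ^ (2 * q * (i + a))

/-- size of the sets -/
noncomputable def mm (N : ℕ) (ε : ℝ) : ℕ := max 1 ⌈(N : ℝ) * ε⌉₊

/-- zero if the expected number is less than one -/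
noncomputable def fl (N : ℕ) (ε : ℝ) : ℝ := if 1 ≤ (N : ℝ) * ε then 1 else 0

/-- primal cost -/
noncomputable def cx (N : ℕ) (r : ℕ → ℝ) (ε : ℝ) : ℝ := min 1 ((N : ℝ) * ε) / r (mm N ε)

/-- dual norm of the indicator of a set with `m` elements, divided by `N` -/
noncomputable def ga (c D : ℝ) (N : ℕ) (r : ℕ → ℝ) (m : ℕ) : ℝ := D * r m * ((m : ℝ) / N) ^ c

/-- dual cost -/
noncomputable def cc (c D : ℝ) (N : ℕ) (r : ℕ → ℝ) (ε : ℝ) : ℝ := min 1 ((N : ℝ) * ε) * ga c D N r (mm N ε)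

/-- the rule: the primal cost is small -/
def PX (D : ℝ) (q N : ℕ) (r : ℕ → ℝ) (i a : ℕ) : Prop := 4 ^ i * cx N r (ep q i a) ≤ Real.sqrt (2 * D) / 4 ^ (i + a)

variable {N : ℕ}

/-- solid sets -/
def Solid (T : Set (Fin N → ℝ)) : Prop := ∀ t ∈ T, ∀ s : Fin N → ℝ, (∀ j, |s j| ≤ |t j|) → s ∈ T

/-- polarized bodies -/
def Pol1 (c D : ℝ) (T : Set (Fin N → ℝ)) (r : ℕ → ℝ) : Prop :=
  ∀ k : ℕ, 1 ≤ k → k ≤ N → 0 < r k ∧ ∀ S : Finset (Fin N), S.card = k →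
    (fun j => if j ∈ S then r k else 0) ∈ T ∧ ∀ t ∈ T, ∑ j ∈ S, |t j| ≤ N * (D * r k * ((k : ℝ) / N) ^ c)

end Pool.Agent.Lib.MP_d2370c_gt.SY
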