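import Pool.Agent.Lib.MP_d2370c_gt.SY.Defs

/-!
# The layer cake inequality with steps at `3 * 4 ^ l`
-/

set_option autoImplicit false

open Finset MeasureTheory Filter Topology

namespace Pool.Agent.Lib.MP_d2370c_gt.SY

open Pool.Agent.Lib.MP_d2370c_gt Pool.Agent.Lib.MP_d2370c_gt.SQ

private theorem lay_ge (i : ℕ) (t : ℝ) : 0 ≤ ∑ l ∈ range i, 9 * 4 ^ l * ind (3 * 4 ^ l) t := by
  refine Finset.sum_nonneg fun l _ => ?_
  unfold ind
  split_ifs <;> positivity

theorem layer (i : ℕ) (t : ℝ) : |t| ≤ 3 + ∑ l ∈ range i, 9 * 4 ^ l * ind (3 * 4 ^ l) t + |t| * ind (3 * 4 ^ i) t := by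
  induction i with
  | zero =>
    rw [Finset.range_zero, Finset.sum_empty]
    unfold ind
    split_ifs with h
    · linarith [abs_nonneg t]
    · push Not at h
      simp at h
      linarith
  | succ i ih =>
    rw [Finset.sum_range_succ]
    by_cases h1 : 3 * 4 ^ (i + 1) ≤ |t|
    · have e1 : ind (3 * 4 ^ (i + 1)) t = 1 := by unfold ind; rw [if_pos h1]
      have e2 : 0 ≤ 9 * 4 ^ i * ind (3 * 4 ^ i) t := by unfold ind; split_ifs <;> positivity
      have e3 := lay_ge i t
      rw [e1]
      linarith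
    · have e1 : ind (3 * 4 ^ (i + 1)) t = 0 := by unfold ind; rw [if_neg h1]
      rw [e1]
      push Not at h1
      by_cases h2 : 3 * 4 ^ i ≤ |t|
      · have e2 : ind (3 * 4 ^ i) t = 1 := by unfold ind; rw [if_pos h2]
        rw [e2]
        -- all the lower indicators are one
        have e3 : ∑ l ∈ range i, 9 * 4 ^ l * ind (3 * 4 ^ l) t = ∑ l ∈ range i, 9 * (4 : ℝ) ^ l := by
          refine Finset.sum_congr rfl fun l hl => ?_
          have hl' := Finset.mem_range.1 hl
          have h3 : (4 : ℝ) ^ l ≤ 4 ^ i := pow_le_pow_right₀ (by norm_num) hl'.le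
          have e4 : ind (3 * 4 ^ l) t = 1 := by unfold ind; rw [if_pos (by linarith)]
          rw [e4, mul_one]
        have e5 : ∀ k : ℕ, ∑ l ∈ range k, 9 * (4 : ℝ) ^ l = 3 * 4 ^ k - 3 := by
          intro k
          induction k with
          | zero => simp
          | succ k ihk =>
            rw [Finset.sum_range_succ, ihk, pow_succ]
            ring
        rw [e3, e5]
        rw [pow_succ] at h1
        linarith
      · have e2 : ind (3 * 4 ^ i) t = 0 := by unfold ind; rw [if_neg h2]
        rw [e2] at ih ⊢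
        linarith

end Pool.Agent.Lib.MP_d2370c_gt.SY
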