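import Pool.Agent.Lib.MP_d2370c_gt.SY.Defs
import Pool.Agent.Lib.MP_d2370c_gt.SQ.Pair

/-!
# Symmetric and unconditional bodies: rules for `Maj`
-/

set_option autoImplicit false

open Finset MeasureTheory Filter Topology

namespace Pool.Agent.Lib.MP_d2370c_gt.SY

open Pool.Agent.Lib.MP_d2370c_gt Pool.Agent.Lib.MP_d2370c_gt.SQ

theorem ind_nonneg (X x : ℝ) : 0 ≤ ind X x := by
  unfold ind
  split_ifs
  · exact zero_le_one
  · exact le_rfl

theorem ind_le_one (X x : ℝ) : ind X x ≤ 1 := by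
  unfold ind
  split_ifs
  · exact le_rfl
  · exact zero_le_one

theorem ind_anti {X Y : ℝ} (h : X ≤ Y) (x : ℝ) : ind Y x ≤ ind X x := by
  unfold ind
  by_cases hY : Y ≤ |x|
  · rw [if_pos hY, if_pos (h.trans hY)]
  · rw [if_neg hY]
    split_ifs
    · exact zero_le_one
    · exact le_rfl

theorem Maj.mono {f F E E' : ℝ → ℝ} {κ κ' : ℝ} (h : Maj f F E κ) (hf : ∀ x, 0 ≤ f x) (hF : ∀ t, 0 ≤ F t)
    (hE : ∀ x, E' x ≤ E x) (hκ : κ ≤ κ') : Maj f F E' κ' := by
  obtain ⟨g, G, hp, h1, h2⟩ := h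
  exact ⟨g, G, hp, fun x => (mul_le_mul_of_nonneg_right (hE x) (hf x)).trans (h1 x),
    fun t => (h2 t).trans (mul_le_mul_of_nonneg_right hκ (hF t))⟩

theorem Maj.of_zero {f F E : ℝ → ℝ} (h : ∀ x, E x * f x ≤ 0) : Maj f F E 0 := by
  refine ⟨fun _ => 0, fun _ => 0, FP.zero, h, fun t => ?_⟩
  simp

theorem Maj.add {f F E E' : ℝ → ℝ} {κ κ' : ℝ} (h : Maj f F E κ) (h' : Maj f F E' κ') :
    Maj f F (fun x => E x + E' x) (κ + κ') := by
  obtain ⟨g, G, hp, h1, h2⟩ := h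
  obtain ⟨g', G', hp', h1', h2'⟩ := h'
  refine ⟨fun x => g x + g' x, fun t => G t + G' t, hp.add hp', fun x => ?_, fun t => ?_⟩
  · have := add_le_add (h1 x) (h1' x)
    simp only
    linarith
  · have h3 := abs_add_le (G t) (G' t)
    have := h2 t
    have := h2' t
    simp only
    linarith

theorem Maj.smul {f F E : ℝ → ℝ} {κ : ℝ} (h : Maj f F E κ) {c : ℝ} (hc : 0 ≤ c) : Maj f F (fun x => c * E x) (c * κ) := by
  obtain ⟨g, G, hp, h1, h2⟩ := h
  refine ⟨fun x => c * g x, fun t => c * G t, hp.smul c, fun x => ?_, fun t => ?_⟩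
  · have := mul_le_mul_of_nonneg_left (h1 x) hc
    simp only
    linarith
  · simp only
    rw [abs_mul, abs_of_nonneg hc, mul_assoc]
    exact mul_le_mul_of_nonneg_left (h2 t) hc

theorem Maj.sum {f F : ℝ → ℝ} (s : Finset ℕ) (E : ℕ → ℝ → ℝ) (κ : ℕ → ℝ) (h : ∀ l ∈ s, Maj f F (E l) (κ l)) :
    Maj f F (fun x => ∑ l ∈ s, E l x) (∑ l ∈ s, κ l) := by
  classical
  induction s using Finset.induction_on with
  | empty =>
    rw [Finset.sum_empty]
    refine Maj.of_zero fun x => ?_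
    rw [Finset.sum_empty, zero_mul]
  | insert a s ha ih =>
    rw [Finset.sum_insert ha]
    have h1 := (h a (Finset.mem_insert_self a s)).add (ih fun l hl => h l (Finset.mem_insert_of_mem hl))
    have h2 : (fun x => ∑ l ∈ insert a s, E l x) = fun x => E a x + ∑ l ∈ s, E l x := by
      funext x
      rw [Finset.sum_insert ha]
    rw [h2]
    exact h1

end Pool.Agent.Lib.MP_d2370c_gt.SY
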