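import Pool.Agent.Lib.MP_d2370c_gt.SY.Defs
import Pool.Agent.Lib.MP_d2370c_gt.SY.Maj
import Pool.Agent.Lib.MP_d2370c_gt.SQ.Pair
import Pool.Agent.Lib.MP_d2370c_gt.SQ.Conv

set_option autoImplicit false

open Finset MeasureTheory Filter Topology

namespace Pool.Agent.Lib.MP_d2370c_gt.SY

open Pool.Agent.Lib.MP_d2370c_gt Pool.Agent.Lib.MP_d2370c_gt.SQ

theorem FP_pos {f F : ℝ → ℝ} (h : FP f F) (hF : ∀ t, 0 ≤ F t) (h0 : 0 < F 0) : 0 < f 0 := by
  have h1 : f 0 = ∫ t, F t := by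
    have h2 := h.bwd 0
    have h3 : ∫ t, (F t : ℂ) * ee (t * 0) = ((∫ t, F t : ℝ) : ℂ) := by
      rw [← integral_complex_ofReal]
      congr 1
      funext t
      rw [mul_zero, ee_zero, mul_one]
    rw [h3] at h2
    exact_mod_cast h2.symm
  rw [h1, integral_pos_iff_support_of_nonneg hF h.intF]
  exact (h.contF.isOpen_support).measure_pos _ ⟨0, h0.ne'⟩

/-- integrability of the integrand of a convolution -/
private theorem op_ci {p P g G : ℝ → ℝ} (h : FP p P) (h' : FP g G) (x : ℝ) : Integrable fun y => P (x - y) * g y := by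
  obtain ⟨C, hC0, hC⟩ := h.bdd
  refine h'.intf.bdd_mul (c := C) (h.contF.comp (continuous_const.sub continuous_id)).aestronglyMeasurable
    (ae_of_all _ fun y => ?_)
  exact hC _

private theorem op_sc {q : ℕ} {C : ℝ} {b κ b1 κ1 : ℝ → ℝ} (hB : BaseQ q C b κ b1 κ1) {s : ℝ} (hs : 0 < s) :
    FP (sc s b) (fun t => κ (t / s)) := hB.pair.scale s hs

private theorem op_sc1 {q : ℕ} {C : ℝ} {b κ b1 κ1 : ℝ → ℝ} (hB : BaseQ q C b κ b1 κ1) {s : ℝ} (hs : 0 < s) :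
    FP (sc s b1) (fun t => κ1 (t / s)) := hB.pair1.scale s hs

private theorem op_b1 {q : ℕ} {C : ℝ} {b κ b1 κ1 : ℝ → ℝ} (hB : BaseQ q C b κ b1 κ1) (x : ℝ) : 0 ≤ b1 x :=
  (mul_nonneg (by rw [pow_mul]; positivity) (hB.b0 x)).trans (hB.dec x)

theorem op_pair {q : ℕ} {C : ℝ} {b κ b1 κ1 : ℝ → ℝ} (hB : BaseQ q C b κ b1 κ1) {s : ℝ} (hs : 0 < s) {f F : ℝ → ℝ} (h : FP f F) :
    FP (cv F (sc s b)) (fun t => f t * κ (t / s)) := h.symm.conv (op_sc hB hs)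

theorem op_nonneg {q : ℕ} {C : ℝ} {b κ b1 κ1 : ℝ → ℝ} (hB : BaseQ q C b κ b1 κ1) {s : ℝ} (hs : 0 < s) {f F : ℝ → ℝ}
    (hf : ∀ x, 0 ≤ f x) (hF : ∀ t, 0 ≤ F t) : (∀ x, 0 ≤ cv F (sc s b) x) ∧ ∀ t, 0 ≤ f t * κ (t / s) :=
  ⟨cv_nonneg hF fun x => mul_nonneg hs.le (hB.b0 _), fun t => mul_nonneg (hf t) (hB.k0 _)⟩

theorem op_keep {q : ℕ} {C : ℝ} {b κ b1 κ1 : ℝ → ℝ} (hB : BaseQ q C b κ b1 κ1) {s : ℝ} (hs : 0 < s) {f F E : ℝ → ℝ} {δ : ℝ}
    (hp : FP f F) (hF : ∀ t, 0 ≤ F t) (hδ : 0 ≤ δ) (h : Maj f F E δ) : Maj (fun t => f t * κ (t / s)) (cv F (sc s b)) E δ := by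
  obtain ⟨g, G, hg, h1, h2⟩ := h
  refine ⟨fun t => g t * κ (t / s), cv G (sc s b), (hg.symm.conv (op_sc hB hs)).symm, fun x => ?_, fun t => ?_⟩
  · rw [← mul_assoc]
    exact mul_le_mul_of_nonneg_right (h1 x) (hB.k0 _)
  · unfold cv
    rw [← integral_const_mul, ← Real.norm_eq_abs]
    refine (norm_integral_le_integral_norm _).trans (integral_mono (op_ci hg (op_sc hB hs) t).norm
      ((op_ci hp (op_sc hB hs) t).const_mul δ) fun y => ?_)
    simp only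
    have hb : 0 ≤ sc s b y := mul_nonneg hs.le (hB.b0 _)
    rw [norm_mul, Real.norm_eq_abs, Real.norm_eq_abs, abs_of_nonneg hb, ← mul_assoc]
    exact mul_le_mul_of_nonneg_right (h2 _) hb

/-- the common pattern -/
private theorem op_core {q : ℕ} {C : ℝ} {b κ b1 κ1 : ℝ → ℝ} (hB : BaseQ q C b κ b1 κ1) {s : ℝ} (hs : 0 < s) {f F : ℝ → ℝ}
    {E : ℝ → ℝ} {g G : ℝ → ℝ} {δ w : ℝ}
    (hp : FP f F) (hf : ∀ x, 0 ≤ f x) (hF : ∀ t, 0 ≤ F t) (hw : 0 ≤ w) (hg : FP g G) (hg0 : ∀ x, 0 ≤ g x)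
    (hG : ∀ t, |G t| ≤ δ * f t) (hE : ∀ x, E x ≠ 0 → 0 ≤ E x ∧ ∀ y, E x * (F (x - y) * sc s b y) ≤
      g (x - y) * sc s b y + w * (F (x - y) * sc s b1 y)) :
    Maj (cv F (sc s b)) (fun t => f t * κ (t / s)) E (δ + w * C) := by
  refine ⟨fun x => cv g (sc s b) x + w * cv F (sc s b1) x, fun t => G t * κ (t / s) + w * (f t * κ1 (t / s)),
    (hg.conv (op_sc hB hs)).add ((hp.symm.conv (op_sc1 hB hs)).smul w), fun x => ?_, fun t => ?_⟩
  · have hb : ∀ y, 0 ≤ sc s b y := fun y => mul_nonneg hs.le (hB.b0 _)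
    have hb1 : ∀ y, 0 ≤ sc s b1 y := fun y => mul_nonneg hs.le (op_b1 hB _)
    by_cases hx : E x = 0
    · rw [hx, zero_mul]
      exact add_nonneg (cv_nonneg hg0 hb x) (mul_nonneg hw (cv_nonneg hF hb1 x))
    · have h1 := (hE x hx).2
      show E x * cv F (sc s b) x ≤ cv g (sc s b) x + w * cv F (sc s b1) x
      unfold cv
      rw [← integral_const_mul, ← integral_const_mul, ← integral_add (op_ci hg.symm (op_sc hB hs) x)
        ((op_ci hp (op_sc1 hB hs) x).const_mul w)]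
      exact integral_mono ((op_ci hp (op_sc hB hs) x).const_mul (E x))
        ((op_ci hg.symm (op_sc hB hs) x).add ((op_ci hp (op_sc1 hB hs) x).const_mul w)) h1
  · have hk := hB.k0 (t / s)
    have h1 : |G t * κ (t / s)| ≤ δ * f t * κ (t / s) := by
      rw [abs_mul, abs_of_nonneg hk]
      exact mul_le_mul_of_nonneg_right (hG t) hk
    have h2 : |w * (f t * κ1 (t / s))| ≤ w * (f t * (C * κ (t / s))) := by
      rw [abs_mul, abs_mul, abs_of_nonneg hw, abs_of_nonneg (hf t)]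
      exact mul_le_mul_of_nonneg_left (mul_le_mul_of_nonneg_left (hB.k1 _) (hf t)) hw
    calc |G t * κ (t / s) + w * (f t * κ1 (t / s))| ≤ δ * f t * κ (t / s) + w * (f t * (C * κ (t / s))) :=
          (abs_add_le _ _).trans (add_le_add h1 h2)
      _ = _ := by ring

/-- decay of the window -/
private theorem op_dec {q : ℕ} {C : ℝ} {b κ b1 κ1 : ℝ → ℝ} (hB : BaseQ q C b κ b1 κ1) {s : ℝ} (hs : 0 < s) {τ y : ℝ}
    (hτ : 0 < τ) (hy : τ ≤ |y|) : sc s b y ≤ 1 / (τ * s) ^ (2 * q) * sc s b1 y := by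
  have h1 : (τ * s) ^ (2 * q) ≤ (s * y) ^ (2 * q) := by
    have h2 : τ * s ≤ |s * y| := by
      rw [abs_mul, abs_of_pos hs]
      nlinarith
    calc (τ * s) ^ (2 * q) ≤ |s * y| ^ (2 * q) := pow_le_pow_left₀ (by positivity) h2 _
      _ = (s * y) ^ (2 * q) := by rw [pow_mul, pow_mul, sq_abs]
  have h2 : (τ * s) ^ (2 * q) * b (s * y) ≤ b1 (s * y) :=
    (mul_le_mul_of_nonneg_right h1 (hB.b0 _)).trans (hB.dec _)
  have h3 : b (s * y) ≤ 1 / (τ * s) ^ (2 * q) * b1 (s * y) := by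
    rw [one_div, ← div_eq_inv_mul, le_div_iff₀ (by positivity)]
    linarith
  unfold sc
  calc s * b (s * y) ≤ s * (1 / (τ * s) ^ (2 * q) * b1 (s * y)) := mul_le_mul_of_nonneg_left h3 hs.le
    _ = _ := by ring

theorem op_push {q : ℕ} {C : ℝ} {b κ b1 κ1 : ℝ → ℝ} (hB : BaseQ q C b κ b1 κ1) {s : ℝ} (hs : 0 < s) {f F : ℝ → ℝ} {A τ δ : ℝ}
    (hp : FP f F) (hf : ∀ x, 0 ≤ f x) (hF : ∀ t, 0 ≤ F t) (hτ : 0 < τ) (h : Maj F f (ind A) δ) :
    Maj (cv F (sc s b)) (fun t => f t * κ (t / s)) (ind (A + τ)) (δ + C / (τ * s) ^ (2 * q)) := by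
  obtain ⟨g, G, hg, h1, h2⟩ := h
  have hi0 : ∀ x, 0 ≤ ind A x := fun x => by unfold ind; split_ifs <;> norm_num
  have hg0 : ∀ x, 0 ≤ g x := fun x => (mul_nonneg (hi0 x) (hF x)).trans (h1 x)
  have e : δ + C / (τ * s) ^ (2 * q) = δ + 1 / (τ * s) ^ (2 * q) * C := by ring
  rw [e]
  refine op_core hB hs hp hf hF (by positivity) hg hg0 h2 fun x hx => ?_
  have hx1 : A + τ ≤ |x| := by
    by_contra hc
    exact hx (if_neg hc)
  have hx2 : ind (A + τ) x = 1 := if_pos hx1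
  refine ⟨by rw [hx2]; norm_num, fun y => ?_⟩
  rw [hx2, one_mul]
  have hb : 0 ≤ sc s b y := mul_nonneg hs.le (hB.b0 _)
  have hb1 : 0 ≤ sc s b1 y := mul_nonneg hs.le (op_b1 hB _)
  rcases le_or_gt |y| τ with hy | hy
  · have h3 : A ≤ |x - y| := by
      have := abs_sub_abs_le_abs_sub x y
      linarith
    have h4 := h1 (x - y)
    unfold ind at h4
    rw [if_pos h3, one_mul] at h4
    have h5 := mul_le_mul_of_nonneg_right h4 hb
    have h6 : 0 ≤ 1 / (τ * s) ^ (2 * q) * (F (x - y) * sc s b1 y) :=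
      mul_nonneg (by positivity) (mul_nonneg (hF _) hb1)
    linarith
  · have h3 := mul_le_mul_of_nonneg_left (op_dec hB hs hτ hy.le) (hF (x - y))
    have h4 : 0 ≤ g (x - y) * sc s b y := mul_nonneg (hg0 _) hb
    linarith

theorem op_fresh {q : ℕ} {C : ℝ} {b κ b1 κ1 : ℝ → ℝ} (hB : BaseQ q C b κ b1 κ1) {s : ℝ} (hs : 0 < s) {f F : ℝ → ℝ} {r X : ℝ}
    (hp : FP f F) (hf : ∀ x, 0 ≤ f x) (hF : ∀ t, 0 ≤ F t) (hr : 0 < r) (hout : ∀ t, r ≤ |t| → F t = 0) (hX : r ≤ X) :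
    Maj (cv F (sc s b)) (fun t => f t * κ (t / s)) (ind (2 * X)) (C / (X * s) ^ (2 * q)) := by
  have hX0 : 0 < X := hr.trans_le hX
  have e : C / (X * s) ^ (2 * q) = 0 + 1 / (X * s) ^ (2 * q) * C := by ring
  rw [e]
  refine op_core hB hs hp hf hF (by positivity) FP.zero (fun _ => le_refl _) (fun t => by simp) fun x hx => ?_
  have hx1 : 2 * X ≤ |x| := by
    by_contra hc
    exact hx (if_neg hc)
  have hx2 : ind (2 * X) x = 1 := if_pos hx1
  refine ⟨by rw [hx2]; norm_num, fun y => ?_⟩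
  rw [hx2, one_mul, zero_mul, zero_add]
  rcases le_or_gt r |x - y| with hy | hy
  · rw [hout _ hy]
    simp
  · have h3 : X ≤ |y| := by
      have := abs_sub_abs_le_abs_sub x y
      linarith
    have h4 := mul_le_mul_of_nonneg_left (op_dec hB hs hX0 h3) (hF (x - y))
    linarith

theorem op_mom {q : ℕ} {C : ℝ} {b κ b1 κ1 : ℝ → ℝ} (hB : BaseQ q C b κ b1 κ1) {s : ℝ} (hs : 0 < s) {f F : ℝ → ℝ} {r : ℝ}
    (hp : FP f F) (hf : ∀ x, 0 ≤ f x) (hF : ∀ t, 0 ≤ F t) (hr : 0 < r) (hout : ∀ t, r ≤ |t| → F t = 0) :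
    Maj (cv F (sc s b)) (fun t => f t * κ (t / s)) (fun x => x ^ (2 * q) * ind (2 * r) x) (C * 4 ^ q / s ^ (2 * q)) := by
  have e : C * 4 ^ q / s ^ (2 * q) = 0 + 4 ^ q / s ^ (2 * q) * C := by ring
  rw [e]
  have hev : ∀ x : ℝ, 0 ≤ x ^ (2 * q) := fun x => by rw [pow_mul]; positivity
  refine op_core hB hs hp hf hF (by positivity) FP.zero (fun _ => le_refl _) (fun t => by simp) fun x hx => ?_
  have hx1 : 2 * r ≤ |x| := by
    by_contra hc
    refine hx ?_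
    unfold ind
    rw [if_neg hc, mul_zero]
  have hx2 : ind (2 * r) x = 1 := if_pos hx1
  rw [hx2, mul_one]
  refine ⟨hev x, fun y => ?_⟩
  rw [zero_mul, zero_add]
  rcases le_or_gt r |x - y| with hy | hy
  · rw [hout _ hy]
    simp
  · have h3 : |x| ≤ 2 * |y| := by
      have := abs_sub_abs_le_abs_sub x y
      linarith
    have h4 : x ^ (2 * q) ≤ 4 ^ q * y ^ (2 * q) := by
      calc x ^ (2 * q) = |x| ^ (2 * q) := by rw [pow_mul, pow_mul, sq_abs]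
        _ ≤ (2 * |y|) ^ (2 * q) := pow_le_pow_left₀ (abs_nonneg _) h3 _
        _ = 4 ^ q * y ^ (2 * q) := by
            rw [mul_pow, pow_mul 2, pow_mul |y|, sq_abs, pow_mul y]
            norm_num
    have h5 : y ^ (2 * q) * sc s b y ≤ 1 / s ^ (2 * q) * sc s b1 y := by
      unfold sc
      have h6 := hB.dec (s * y)
      rw [mul_pow] at h6
      have h7 : y ^ (2 * q) * b (s * y) ≤ 1 / s ^ (2 * q) * b1 (s * y) := by
        rw [one_div, ← div_eq_inv_mul, le_div_iff₀ (by positivity)]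
        linarith
      have h8 := mul_le_mul_of_nonneg_left h7 hs.le
      linarith
    have hb : 0 ≤ sc s b y := mul_nonneg hs.le (hB.b0 _)
    have hFF := hF (x - y)
    calc x ^ (2 * q) * (F (x - y) * sc s b y) ≤ (4 ^ q * y ^ (2 * q)) * (F (x - y) * sc s b y) :=
          mul_le_mul_of_nonneg_right h4 (mul_nonneg hFF hb)
      _ = 4 ^ q * F (x - y) * (y ^ (2 * q) * sc s b y) := by ring
      _ ≤ 4 ^ q * F (x - y) * (1 / s ^ (2 * q) * sc s b1 y) :=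
          mul_le_mul_of_nonneg_left h5 (mul_nonneg (by positivity) hFF)
      _ = _ := by ring

end Pool.Agent.Lib.MP_d2370c_gt.SY
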