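import Pool.Agent.Lib.MP_d2370c_gt.SY.St

/-!
# Symmetric and unconditional bodies, module Path (helper18)

The kernel is built along a path in the quadrant.
-/

set_option autoImplicit false

open Finset MeasureTheory Filter Topology

namespace Pool.Agent.Lib.MP_d2370c_gt.SY

open Pool.Agent.Lib.MP_d2370c_gt Pool.Agent.Lib.MP_d2370c_gt.SQ

theorem path {q : ℕ} (hq : 1 ≤ q) {C : ℝ} (hC : 0 ≤ C) {b κ b1 κ1 : ℝ → ℝ} (hB : BaseQ q C b κ b1 κ1) (P : ℕ → ℕ → Prop) (K : ℕ) :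
    ∃ (i a : ℕ) (mx ma : ℕ → ℕ) (φ ρ : ℝ → ℝ), i + a = K ∧ (∀ l < i, P l (mx l)) ∧ (∀ l < a, ¬ P (ma l) l) ∧
      (St q C i a ρ φ mx ma ∨ St q C a i φ ρ ma mx) := by
  induction K with
  | zero =>
    exact ⟨0, 0, fun _ => 0, fun _ => 0, κ, b, rfl, fun l hl => absurd hl (Nat.not_lt_zero l),
      fun l hl => absurd hl (Nat.not_lt_zero l), Or.inl (St.init hB _ _)⟩
  | succ K ih =>
    obtain ⟨i, a, mx, ma, φ, ρ, hK, hx, ha, hst⟩ := ih
    by_cases hP : P i a
    · -- increase `i`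
      have hx' : ∀ l < i + 1, P l (Function.update mx i a l) := by
        intro l hl
        by_cases h : l = i
        · subst h
          rw [Function.update_self]
          exact hP
        · rw [Function.update_of_ne h]
          exact hx l (by omega)
      rcases hst with hst | hst
      · exact ⟨i + 1, a, Function.update mx i a, ma, φ, ρ, by omega, hx', ha, Or.inl (hst.grow hC)⟩
      · exact ⟨i + 1, a, Function.update mx i a, ma, _, _, by omega, hx', ha, Or.inl (hst.turn hq hC hB)⟩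
    · -- increase `a`
      have ha' : ∀ l < a + 1, ¬ P (Function.update ma a i l) l := by
        intro l hl
        by_cases h : l = a
        · subst h
          rw [Function.update_self]
          exact hP
        · rw [Function.update_of_ne h]
          exact ha l (by omega)
      rcases hst with hst | hst
      · exact ⟨i, a + 1, mx, Function.update ma a i, _, _, by omega, hx, ha', Or.inr (hst.turn hq hC hB)⟩
      · exact ⟨i, a + 1, mx, Function.update ma a i, φ, ρ, by omega, hx, ha', Or.inr (hst.grow hC)⟩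

/-- what remains of the state at the end -/
private theorem path_end {q : ℕ} (hq : 1 ≤ q) {C : ℝ} (hC : 0 ≤ C) {i a : ℕ} {f F : ℝ → ℝ} {mx ma : ℕ → ℕ}
    (h : St q C i a f F mx ma) :
    (∀ l < i, Maj f F (ind (3 * 4 ^ l)) (2 * C * (1 / 4) ^ (2 * q * (l + mx l)))) ∧
    (∀ l < a, Maj F f (ind (3 * 4 ^ l)) (2 * C * (1 / 4) ^ (2 * q * (l + ma l)))) ∧
    Maj f F (fun x => |x| * ind (3 * 4 ^ i) x) (C * 4 ^ q / 4 ^ (i + a)) ∧
    Maj F f (fun x => |x| * ind (3 * 4 ^ a) x) (C * 4 ^ q / 4 ^ (i + a)) := by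
  have hpow : ∀ n : ℕ, (0 : ℝ) < 4 ^ n := fun n => by positivity
  have hquot : ∀ (y : ℝ) (n : ℕ), y ≤ 2 → C * y / 4 ^ n ≤ 2 * C * (1 / 4) ^ n := by
    intro y n hy
    rw [one_div, inv_pow, div_eq_mul_inv]
    refine mul_le_mul_of_nonneg_right ?_ (inv_nonneg.2 (hpow n).le)
    nlinarith
  refine ⟨fun l hl => ?_, fun l hl => ?_, ?_, ?_⟩
  · refine (h.rx l hl).2.mono h.f0 h.F0 (fun x => ind_anti ?_ x) (hquot _ _ ?_)
    · have h1 : (0 : ℝ) ≤ (1 / 2) ^ (a - mx l) := by positivity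
      have := hpow l
      nlinarith
    · have h1 : (0 : ℝ) ≤ (1 / 2) ^ (a - mx l) := by positivity
      linarith
  · refine (h.ra l hl).2.mono h.F0 h.f0 (fun x => ind_anti ?_ x) (hquot _ _ ?_)
    · have h1 : (0 : ℝ) ≤ (1 / 2) ^ (i - ma l) := by positivity
      have := hpow l
      nlinarith
    · have h1 : (0 : ℝ) ≤ (1 / 2) ^ (i - ma l) := by positivity
      linarith
  · have hc0 : (0 : ℝ) ≤ 1 / 4 ^ (i * (2 * q - 1)) := by positivity
    refine (h.mom.smul hc0).mono h.f0 h.F0 (fun x => ?_) ?_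
    · show |x| * ind (3 * 4 ^ i) x ≤ 1 / 4 ^ (i * (2 * q - 1)) * (x ^ (2 * q) * ind (2 * 4 ^ i) x)
      unfold ind
      split_ifs with h1 h2
      · rw [mul_one, mul_one, one_div, inv_mul_eq_div, le_div_iff₀ (hpow _)]
        have h3 : (4 : ℝ) ^ i ≤ |x| := by
          have := hpow i
          linarith
        have h4 : (4 : ℝ) ^ (i * (2 * q - 1)) ≤ |x| ^ (2 * q - 1) := by
          rw [pow_mul]
          exact pow_le_pow_left₀ (hpow i).le h3 _
        have h5 : x ^ (2 * q) = |x| * |x| ^ (2 * q - 1) := by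
          rw [← pow_succ', Nat.sub_add_cancel (by omega), Even.pow_abs (even_two_mul q)]
        rw [h5]
        exact mul_le_mul_of_nonneg_left h4 (abs_nonneg x)
      · exfalso
        apply h2
        have := hpow i
        linarith
      · rw [mul_zero, mul_one]
        have h3 : 0 ≤ x ^ (2 * q) := Even.pow_nonneg (even_two_mul q) x
        positivity
      · simp
    · have h1 : (1 : ℝ) / 4 ^ (i * (2 * q - 1)) * (C * 4 ^ q / 4 ^ (2 * q * a)) =
          C * 4 ^ q / 4 ^ (i * (2 * q - 1) + 2 * q * a) := by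
        rw [pow_add]
        field_simp
      rw [h1]
      refine div_le_div_of_nonneg_left (by positivity) (hpow _) ?_
      refine pow_le_pow_right₀ (by norm_num) ?_
      have h2 : i ≤ i * (2 * q - 1) := Nat.le_mul_of_pos_right i (by omega)
      have h3 : a ≤ 2 * q * a := Nat.le_mul_of_pos_left a (by omega)
      omega
  · refine (Maj.of_zero (f := F) (F := f) (E := fun x => |x| * ind (3 * 4 ^ a) x) fun x => ?_).mono h.F0 h.f0
      (fun x => le_rfl) (by positivity)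
    show |x| * ind (3 * 4 ^ a) x * F x ≤ 0
    unfold ind
    split_ifs with h1
    · rw [h.out x (by have := hpow a; linarith), mul_zero]
    · simp

theorem path' {q : ℕ} (hq : 1 ≤ q) {C : ℝ} (hC : 0 ≤ C) {b κ b1 κ1 : ℝ → ℝ} (hB : BaseQ q C b κ b1 κ1) (P : ℕ → ℕ → Prop) (K : ℕ) :
    ∃ (i a : ℕ) (mx ma : ℕ → ℕ) (φ ρ : ℝ → ℝ), i + a = K ∧ FP φ ρ ∧ (∀ c, 0 ≤ φ c) ∧ (∀ t, 0 ≤ ρ t) ∧ 0 < ρ 0 ∧
      (∀ l < i, P l (mx l) ∧ Maj ρ φ (ind (3 * 4 ^ l)) (2 * C * ep q l (mx l))) ∧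
      (∀ l < a, ¬ P (ma l) l ∧ Maj φ ρ (ind (3 * 4 ^ l)) (2 * C * ep q (ma l) l)) ∧
      Maj ρ φ (fun x => |x| * ind (3 * 4 ^ i) x) (C * 4 ^ q / 4 ^ K) ∧
      Maj φ ρ (fun x => |x| * ind (3 * 4 ^ a) x) (C * 4 ^ q / 4 ^ K) := by
  obtain ⟨i, a, mx, ma, φ, ρ, hK, hx, ha, hst⟩ := path hq hC hB P K
  rcases hst with hst | hst
  · obtain ⟨h1, h2, h3, h4⟩ := path_end hq hC hst
    refine ⟨i, a, mx, ma, φ, ρ, hK, hst.pair.symm, hst.F0, hst.f0, FP_pos hst.pair hst.F0 hst.pos,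
      fun l hl => ⟨hx l hl, h1 l hl⟩, fun l hl => ⟨ha l hl, ?_⟩, ?_, ?_⟩
    · have h5 := h2 l hl
      rw [add_comm] at h5
      exact h5
    · rw [← hK]
      exact h3
    · rw [← hK]
      exact h4
  · obtain ⟨h1, h2, h3, h4⟩ := path_end hq hC hst
    refine ⟨i, a, mx, ma, φ, ρ, hK, hst.pair, hst.f0, hst.F0, hst.pos,
      fun l hl => ⟨hx l hl, h2 l hl⟩, fun l hl => ⟨ha l hl, ?_⟩, ?_, ?_⟩
    · have h5 := h1 l hl
      rw [add_comm] at h5
      exact h5
    · rw [← hK, add_comm i a]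
      exact h4
    · rw [← hK, add_comm i a]
      exact h3

end Pool.Agent.Lib.MP_d2370c_gt.SY
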