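import Pool.Agent.Lib.MP_d2370c_gt.SY.Defs
import Pool.Agent.Lib.MP_d2370c_gt.ClassR
import Pool.Agent.Lib.MP_d2370c_gt.FinalB

/-!
# Bodies convex of order `ρ` and their polars are polarized
-/

set_option autoImplicit false

open Finset MeasureTheory

namespace Pool.Agent.Lib.MP_d2370c_gt.SY

open Pool.Agent.Lib.MP_d2370c_gt Pool.Agent.Lib.MP_d2370c_gt.SQ

variable {N : ℕ}

/-- Hoelder for the sum over a set with `k` elements -/
theorem holder_rc {ρ : ℝ} (hρ : 1 < ρ) (S : Finset (Fin N)) (k : ℕ) (hk : S.card = k) (x : Fin N → ℝ)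
    (hx : ∀ j, 0 ≤ x j) (h : ∑ j, x j ^ ρ ≤ N) :
    ∑ j ∈ S, x j ≤ (k : ℝ) ^ (1 - 1 / ρ) * (N : ℝ) ^ (1 / ρ) := by
  have hρ0 : 0 < ρ := by linarith
  have hc := Real.HolderConjugate.conjExponent hρ
  have h1 := Real.inner_le_Lp_mul_Lq_of_nonneg S hc.symm (f := fun _ => 1) (g := x)
    (fun _ _ => zero_le_one) (fun j _ => hx j)
  simp only [one_mul, Real.one_rpow, Finset.sum_const, nsmul_eq_mul, mul_one] at h1
  rw [hk] at h1
  have h2 : (1 : ℝ) / Real.conjExponent ρ = 1 - 1 / ρ := by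
    unfold Real.conjExponent
    have : ρ - 1 ≠ 0 := by linarith
    field_simp
  rw [h2] at h1
  refine h1.trans ?_
  have h3 : ∑ j ∈ S, x j ^ ρ ≤ N := le_trans
    (Finset.sum_le_sum_of_subset_of_nonneg (Finset.subset_univ S) fun j _ _ => Real.rpow_nonneg (hx j) _) h
  have h4 : 0 ≤ ∑ j ∈ S, x j ^ ρ := Finset.sum_nonneg fun j _ => Real.rpow_nonneg (hx j) _
  exact mul_le_mul_of_nonneg_left (Real.rpow_le_rpow h4 h3 (by positivity)) (by positivity)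

theorem pol1_rc {ρ : ℝ} (hρ : 1 < ρ) {T : Set (Fin N → ℝ)} (hT : SolidConvex ρ T) :
    ∃ (δ : Fin N → ℝ) (r : ℕ → ℝ), (∀ j, 0 < δ j) ∧ Pol1 (1 - 1 / ρ) 1 {t : Fin N → ℝ | (fun j => δ j * t j) ∈ T} r := by
  obtain ⟨D, hD0, hD, hDle⟩ := hT.exists_box hρ.le
  refine ⟨D, fun _ => 1, hD0, ?_⟩
  intro k hk1 hkN
  refine ⟨one_pos, fun S hS => ⟨?_, ?_⟩⟩
  · refine hT.solid D hD _ fun j => ?_
    dsimp only
    split_ifs
    · rw [mul_one]
    · simp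
  · intro t ht
    have hk0 : (0 : ℝ) < k := by exact_mod_cast hk1
    have hN0 : (0 : ℝ) < N := lt_of_lt_of_le hk0 (by exact_mod_cast hkN)
    have h1 := hDle _ ht
    have h2 : ∀ j, |D j * t j| / D j = |t j| := by
      intro j
      rw [abs_mul, abs_of_pos (hD0 j), mul_div_cancel_left₀ _ (hD0 j).ne']
    simp only [h2] at h1
    have h3 := holder_rc hρ S k hS (fun j => |t j|) (fun j => abs_nonneg _) h1
    refine h3.trans (le_of_eq ?_)
    rw [one_mul, one_mul, Real.div_rpow hk0.le hN0.le, mul_div_assoc', eq_div_iff (by positivity), mul_assoc,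
      ← Real.rpow_add hN0]
    rw [show 1 / ρ + (1 - 1 / ρ) = 1 by ring, Real.rpow_one]
    ring

/-- signs chosen well -/
theorem pol_abs {T : Set (Fin N → ℝ)} (hsol : ∀ t ∈ T, ∀ s : Fin N → ℝ, (∀ j, |s j| ≤ |t j|) → s ∈ T)
    {s : Fin N → ℝ} (hs : s ∈ pol T) {t : Fin N → ℝ} (ht : t ∈ T) : ∑ j, |s j| * |t j| ≤ 1 := by
  have h1 : (fun j => if 0 ≤ s j then |t j| else -|t j|) ∈ T := by
    refine hsol t ht _ fun j => ?_
    split_ifs
    · rw [abs_abs]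
    · rw [abs_neg, abs_abs]
  have h2 := hs _ h1
  refine le_trans (le_of_eq ?_) h2
  refine Finset.sum_congr rfl fun j _ => ?_
  split_ifs with h
  · rw [abs_of_nonneg h]
  · rw [abs_of_neg (not_le.mp h)]
    ring

theorem pol1_rcp {ρ : ℝ} (hρ : 1 < ρ) {T : Set (Fin N → ℝ)} (hT : SolidConvex ρ T) :
    ∃ (δ : Fin N → ℝ) (r : ℕ → ℝ), (∀ j, 0 < δ j) ∧ Pol1 (1 - 1 / ρ) 1 {t : Fin N → ℝ | (fun j => δ j * t j) ∈ pol T} r := by
  obtain ⟨D, hD0, hD, hDle⟩ := hT.exists_box hρ.le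
  refine ⟨fun j => (D j)⁻¹, fun k => ((k : ℝ) ^ (1 - 1 / ρ) * (N : ℝ) ^ (1 / ρ))⁻¹, fun j => inv_pos.mpr (hD0 j), ?_⟩
  intro k hk1 hkN
  have hk0 : (0 : ℝ) < k := by exact_mod_cast hk1
  have hN0 : (0 : ℝ) < N := lt_of_lt_of_le hk0 (by exact_mod_cast hkN)
  have hpos : 0 < (k : ℝ) ^ (1 - 1 / ρ) * (N : ℝ) ^ (1 / ρ) := by positivity
  refine ⟨inv_pos.mpr hpos, fun S hS => ⟨?_, ?_⟩⟩
  · intro t ht
    have h3 := holder_rc hρ S k hS (fun j => |t j| / D j) (fun j => div_nonneg (abs_nonneg _) (hD0 j).le) (hDle t ht)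
    have h4 : ∑ j, (D j)⁻¹ * (if j ∈ S then ((k : ℝ) ^ (1 - 1 / ρ) * (N : ℝ) ^ (1 / ρ))⁻¹ else 0) * t j
        ≤ ∑ j ∈ S, ((k : ℝ) ^ (1 - 1 / ρ) * (N : ℝ) ^ (1 / ρ))⁻¹ * (|t j| / D j) := by
      rw [← Finset.sum_filter_add_sum_filter_not Finset.univ (fun j => j ∈ S)]
      have h5 : ∑ j ∈ Finset.univ.filter (fun j => j ∉ S),
          (D j)⁻¹ * (if j ∈ S then ((k : ℝ) ^ (1 - 1 / ρ) * (N : ℝ) ^ (1 / ρ))⁻¹ else 0) * t j = 0 := by
        refine Finset.sum_eq_zero fun j hj => ?_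
        rw [if_neg (Finset.mem_filter.mp hj).2]
        ring
      rw [h5, add_zero, Finset.filter_mem_eq_inter, Finset.univ_inter]
      refine Finset.sum_le_sum fun j hj => ?_
      rw [if_pos hj]
      have h6 : (D j)⁻¹ * t j ≤ |t j| / D j := by
        rw [div_eq_inv_mul]
        exact mul_le_mul_of_nonneg_left (le_abs_self _) (inv_pos.mpr (hD0 j)).le
      calc _ = ((k : ℝ) ^ (1 - 1 / ρ) * (N : ℝ) ^ (1 / ρ))⁻¹ * ((D j)⁻¹ * t j) := by ring
        _ ≤ _ := mul_le_mul_of_nonneg_left h6 (inv_pos.mpr hpos).le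
    refine h4.trans ?_
    rw [← Finset.mul_sum]
    calc _ ≤ ((k : ℝ) ^ (1 - 1 / ρ) * (N : ℝ) ^ (1 / ρ))⁻¹ * ((k : ℝ) ^ (1 - 1 / ρ) * (N : ℝ) ^ (1 / ρ)) :=
          mul_le_mul_of_nonneg_left h3 (inv_pos.mpr hpos).le
      _ = 1 := inv_mul_cancel₀ hpos.ne'
  · intro s hs
    have h1 := pol_abs hT.solid hs hD
    have h2 : ∑ j ∈ S, |s j| ≤ 1 := by
      refine le_trans (Finset.sum_le_sum_of_subset_of_nonneg (Finset.subset_univ S) fun j _ _ => abs_nonneg _) ?_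
      refine le_trans (le_of_eq ?_) h1
      refine Finset.sum_congr rfl fun j _ => ?_
      rw [abs_mul, abs_of_pos (inv_pos.mpr (hD0 j)), abs_of_pos (hD0 j)]
      have := (hD0 j).ne'
      field_simp
    refine h2.trans (le_of_eq ?_)
    rw [one_mul, Real.div_rpow hk0.le hN0.le]
    have h7 : (N : ℝ) ^ (1 / ρ) * (N : ℝ) ^ (1 - 1 / ρ) = N := by
      rw [← Real.rpow_add hN0, show 1 / ρ + (1 - 1 / ρ) = 1 by ring, Real.rpow_one]
    have hk' : (0 : ℝ) < (k : ℝ) ^ (1 - 1 / ρ) := by positivity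
    have hN1 : (0 : ℝ) < (N : ℝ) ^ (1 / ρ) := by positivity
    have hN2 : (0 : ℝ) < (N : ℝ) ^ (1 - 1 / ρ) := by positivity
    rw [eq_comm]
    calc (N : ℝ) * (((k : ℝ) ^ (1 - 1 / ρ) * (N : ℝ) ^ (1 / ρ))⁻¹ * ((k : ℝ) ^ (1 - 1 / ρ) / (N : ℝ) ^ (1 - 1 / ρ)))
        = (N : ℝ) / ((N : ℝ) ^ (1 / ρ) * (N : ℝ) ^ (1 - 1 / ρ)) := by
          field_simp
      _ = 1 := by rw [h7]; exact div_self hN0.ne'

theorem pol_compact {ρ : ℝ} (_hρ : 1 ≤ ρ) {T : Set (Fin N → ℝ)} (hT : SolidConvex ρ T) :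
    IsCompact (pol T) ∧ Solid (pol T) := by
  constructor
  · obtain ⟨t0, ht0, ht0'⟩ := hT.full
    have hcl : IsClosed (pol T) := by
      have : pol T = ⋂ t ∈ T, {s : Fin N → ℝ | ∑ j, s j * t j ≤ 1} := by
        ext s
        simp [pol]
      rw [this]
      refine isClosed_biInter fun t _ => ?_
      exact isClosed_le (by fun_prop) continuous_const
    refine (isCompact_Icc (a := fun j => -(1 / |t0 j|)) (b := fun j => 1 / |t0 j|)).of_isClosed_subset hcl ?_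
    intro s hs
    have h1 := pol_abs hT.solid hs ht0
    have h2 : ∀ j, |s j| ≤ 1 / |t0 j| := by
      intro j
      rw [le_div_iff₀ (abs_pos.mpr (ht0' j))]
      exact le_trans (Finset.single_le_sum (f := fun j => |s j| * |t0 j|)
        (fun i _ => mul_nonneg (abs_nonneg _) (abs_nonneg _)) (Finset.mem_univ j)) h1
    exact ⟨fun j => (abs_le.mp (h2 j)).1, fun j => (abs_le.mp (h2 j)).2⟩
  · intro s hs s' hs' t ht
    have h1 := pol_abs hT.solid hs ht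
    refine le_trans (Finset.sum_le_sum fun j _ => ?_) h1
    calc s' j * t j ≤ |s' j * t j| := le_abs_self _
      _ = |s' j| * |t j| := abs_mul _ _
      _ ≤ |s j| * |t j| := mul_le_mul_of_nonneg_right (hs' j) (abs_nonneg _)

end Pool.Agent.Lib.MP_d2370c_gt.SY
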