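import Pool.Agent.Lib.MP_d2370c_gt.SY.Defs
import Pool.Agent.Lib.MP_d2370c_gt.SY.Core

/-!
# SY, row S11: no normalization, and a diagonal scaling

Apply `core` to `T' = {t | (a j * t j)_j ∈ T}`, `u' j = u j / a j` with `a j = δ j * r N`.
-/

set_option autoImplicit false

open Finset MeasureTheory Filter Topology

namespace Pool.Agent.Lib.MP_d2370c_gt.SY

open Pool.Agent.Lib.MP_d2370c_gt Pool.Agent.Lib.MP_d2370c_gt.SQ

/-- scaling by positive factors -/
private theorem S11_compact {N : ℕ} {T : Set (Fin N → ℝ)} (hT : IsCompact T) {a : Fin N → ℝ} (ha : ∀ j, 0 < a j) :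
    IsCompact {t : Fin N → ℝ | (fun j => a j * t j) ∈ T} := by
  have e : {t : Fin N → ℝ | (fun j => a j * t j) ∈ T} = (fun s : Fin N → ℝ => fun j => s j / a j) '' T := by
    ext t
    constructor
    · intro ht
      refine ⟨_, ht, ?_⟩
      funext j
      exact mul_div_cancel_left₀ _ (ha j).ne'
    · rintro ⟨s, hs, rfl⟩
      have : (fun j => a j * (s j / a j)) = s := by
        funext j
        exact mul_div_cancel₀ _ (ha j).ne'
      change (fun j => a j * (s j / a j)) ∈ T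
      rw [this]; exact hs
  rw [e]
  refine hT.image ?_
  exact continuous_pi fun j => (continuous_apply j).div_const _

/-- `core'` from the statement of `core` -/
theorem core'_of (c D : ℝ) (hcore : ∃ C : ℝ, 0 ≤ C ∧ ∀ (n N d : ℕ) (T : Set (Fin N → ℝ)), IsCompact T →
    Convex ℝ T → Solid T → ∀ r : ℕ → ℝ, Pol1 c D T r → r N = 1 → ∀ K : Set (Fin d → ℝ), Convex ℝ K → (interior K).Nonempty →
    (∀ z : Fin d → ℤ, (fun i => (z i : ℝ)) ∉ interior K) → ∀ u : Fin N → Fin n → ℝ, Inj u → ∀ (v : Fin n → Fin d → ℝ) (x0 : Fin d → ℝ)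
    (M : ℝ), 0 ≤ M → (∀ x : Fin n → ℝ, lin u x ∈ T → XX x0 v x ∈ K) →
    (∀ z ∈ K, ∃ x : Fin n → ℝ, (∃ s ∈ T, lin u x = M • s) ∧ z = XX x0 v x) →
    ∃ y : Fin d → ℤ, y ≠ 0 ∧ ∀ z ∈ K, ∀ z' ∈ K, ∑ i, (z i - z' i) * (y i : ℝ) ≤ C * M * N) :
    ∃ C : ℝ, 0 ≤ C ∧ ∀ (n N d : ℕ) (T : Set (Fin N → ℝ)), IsCompact T →
    Convex ℝ T → Solid T → ∀ (δ : Fin N → ℝ), (∀ j, 0 < δ j) → ∀ r : ℕ → ℝ, Pol1 c D {t : Fin N → ℝ | (fun j => δ j * t j) ∈ T} r →
    ∀ K : Set (Fin d → ℝ), Convex ℝ K → (interior K).Nonempty →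
    (∀ z : Fin d → ℤ, (fun i => (z i : ℝ)) ∉ interior K) → ∀ u : Fin N → Fin n → ℝ, Inj u → ∀ (v : Fin n → Fin d → ℝ) (x0 : Fin d → ℝ)
    (M : ℝ), 0 ≤ M → (∀ x : Fin n → ℝ, lin u x ∈ T → XX x0 v x ∈ K) →
    (∀ z ∈ K, ∃ x : Fin n → ℝ, (∃ s ∈ T, lin u x = M • s) ∧ z = XX x0 v x) →
    ∃ y : Fin d → ℤ, y ≠ 0 ∧ ∀ z ∈ K, ∀ z' ∈ K, ∑ i, (z i - z' i) * (y i : ℝ) ≤ C * M * N := by
  obtain ⟨C, hC, hcore⟩ := hcore
  refine ⟨C, hC, ?_⟩
  intro n N d T hT hconv hsol δ hδ r hpol K hK hKi hz u hu v x0 M hM h1 h2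
  -- the normalization
  set ρ : ℝ := if N = 0 then 1 else r N with hρ
  have hρ0 : 0 < ρ := by
    by_cases hN : N = 0
    · rw [hρ, if_pos hN]; exact one_pos
    · rw [hρ, if_neg hN]
      exact (hpol N (Nat.one_le_iff_ne_zero.mpr hN) le_rfl).1
  set a : Fin N → ℝ := fun j => δ j * ρ with ha_def
  have ha : ∀ j, 0 < a j := fun j => mul_pos (hδ j) hρ0
  set T' : Set (Fin N → ℝ) := {t : Fin N → ℝ | (fun j => a j * t j) ∈ T} with hT'
  set r' : ℕ → ℝ := fun k => if N = 0 then 1 else r k / ρ with hr'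
  set u' : Fin N → Fin n → ℝ := fun j k => u j k / a j with hu'
  have hlin : ∀ x : Fin n → ℝ, ∀ j, a j * lin u' x j = lin u x j := by
    intro x j
    simp only [lin, hu']
    rw [mul_sum]
    refine sum_congr rfl fun k _ => ?_
    have := (ha j).ne'
    field_simp
  have hmem : ∀ x : Fin n → ℝ, lin u' x ∈ T' ↔ lin u x ∈ T := by
    intro x
    have e : (fun j => a j * lin u' x j) = lin u x := funext (hlin x)
    rw [hT', Set.mem_ofPred_eq, e]
  refine hcore n N d T' (S11_compact hT ha) ?_ ?_ r' ?_ ?_ K hK hKi hz u' ?_ v x0 M hM ?_ ?_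
  · -- convex
    intro s hs t ht p q hp hq hpq
    have h3 := hconv hs ht hp hq hpq
    have e : p • (fun j => a j * s j) + q • (fun j => a j * t j) = fun j => a j * (p • s + q • t) j := by
      funext j
      simp only [Pi.add_apply, Pi.smul_apply, smul_eq_mul]
      ring
    rw [e] at h3
    exact h3
  · -- solid
    intro t ht s hst
    refine hsol _ ht _ fun j => ?_
    change |a j * s j| ≤ |a j * t j|
    rw [abs_mul (a j) (s j), abs_mul (a j) (t j)]
    exact mul_le_mul_of_nonneg_left (hst j) (abs_nonneg _)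
  · -- Pol1
    intro k hk hkN
    have hN : N ≠ 0 := by omega
    obtain ⟨p1, p2⟩ := hpol k hk hkN
    have er : r' k = r k / ρ := by simp only [hr']; rw [if_neg hN]
    refine ⟨by rw [er]; exact div_pos p1 hρ0, fun S hS => ?_⟩
    obtain ⟨p3, p4⟩ := p2 S hS
    constructor
    · have e : (fun j => a j * (if j ∈ S then r' k else 0)) = fun j => δ j * (if j ∈ S then r k else 0) := by
        funext j
        split_ifs
        · rw [er]
          simp only [ha_def]
          field_simp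
        · rw [mul_zero, mul_zero]
      change (fun j => a j * (if j ∈ S then r' k else 0)) ∈ T
      rw [e]
      exact p3
    · intro t ht
      have h3 : (fun j => ρ * t j) ∈ {t : Fin N → ℝ | (fun j => δ j * t j) ∈ T} := by
        change (fun j => δ j * (ρ * t j)) ∈ T
        have e : (fun j => δ j * (ρ * t j)) = fun j => a j * t j := by
          funext j
          simp only [ha_def]
          ring
        rw [e]
        exact ht
      have h4 := p4 _ h3
      have e : ∑ j ∈ S, |ρ * t j| = ρ * ∑ j ∈ S, |t j| := by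
        rw [mul_sum]
        refine sum_congr rfl fun j _ => ?_
        rw [abs_mul, abs_of_pos hρ0]
      simp only [e] at h4
      rw [er]
      have e2 : (N : ℝ) * (D * (r k / ρ) * ((k : ℝ) / N) ^ c) = (N * (D * r k * ((k : ℝ) / N) ^ c)) / ρ := by
        ring
      rw [e2, le_div_iff₀ hρ0]
      linarith
  · -- normalization
    by_cases hN : N = 0
    · simp only [hr']; rw [if_pos hN]
    · simp only [hr']
      rw [if_neg hN, hρ, if_neg hN, div_self]
      exact (hpol N (Nat.one_le_iff_ne_zero.mpr hN) le_rfl).1.ne'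
  · -- injective
    intro x hx
    refine hu x ?_
    funext j
    rw [← hlin x j, hx]
    simp
  · intro x hx
    exact h1 x ((hmem x).1 hx)
  · intro z hzK
    obtain ⟨x, ⟨s, hs, hxs⟩, hzx⟩ := h2 z hzK
    refine ⟨x, ⟨fun j => s j / a j, ?_, ?_⟩, hzx⟩
    · have e : (fun j => a j * (s j / a j)) = s := by
        funext j
        exact mul_div_cancel₀ _ (ha j).ne'
      change (fun j => a j * (s j / a j)) ∈ T
      rw [e]; exact hs
    · funext j
      have h3 := hlin x j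
      rw [hxs] at h3
      have h4 := (ha j).ne'
      simp only [Pi.smul_apply, smul_eq_mul] at h3 ⊢
      rw [mul_div_assoc', eq_div_iff h4, ← h3]
      ring

/-- `core` without the normalization `r N = 1`, for diagonal images. -/
theorem core' (c D : ℝ) (hc : 0 < c) (hc1 : c ≤ 1) (hD : 1 ≤ D) : ∃ C : ℝ, 0 ≤ C ∧ ∀ (n N d : ℕ) (T : Set (Fin N → ℝ)), IsCompact T →
    Convex ℝ T → Solid T → ∀ (δ : Fin N → ℝ), (∀ j, 0 < δ j) → ∀ r : ℕ → ℝ, Pol1 c D {t : Fin N → ℝ | (fun j => δ j * t j) ∈ T} r →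
    ∀ K : Set (Fin d → ℝ), Convex ℝ K → (interior K).Nonempty →
    (∀ z : Fin d → ℤ, (fun i => (z i : ℝ)) ∉ interior K) → ∀ u : Fin N → Fin n → ℝ, Inj u → ∀ (v : Fin n → Fin d → ℝ) (x0 : Fin d → ℝ)
    (M : ℝ), 0 ≤ M → (∀ x : Fin n → ℝ, lin u x ∈ T → XX x0 v x ∈ K) →
    (∀ z ∈ K, ∃ x : Fin n → ℝ, (∃ s ∈ T, lin u x = M • s) ∧ z = XX x0 v x) →
    ∃ y : Fin d → ℤ, y ≠ 0 ∧ ∀ z ∈ K, ∀ z' ∈ K, ∑ i, (z i - z' i) * (y i : ℝ) ≤ C * M * N :=
  core'_of c D (core c D hc hc1 hD)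

end Pool.Agent.Lib.MP_d2370c_gt.SY
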