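import Pool.Agent.Lib.MP_d2370c_gt.SY.Op

/-!
# The state of the construction of the kernel: start, growth, turn
-/

set_option autoImplicit false

open Finset MeasureTheory Filter Topology

namespace Pool.Agent.Lib.MP_d2370c_gt.SY

open Pool.Agent.Lib.MP_d2370c_gt Pool.Agent.Lib.MP_d2370c_gt.SQ

private theorem st_ind_le {X Y : ℝ} (h : X ≤ Y) (x : ℝ) : ind Y x ≤ ind X x := ind_anti h x

private theorem st_half (k : ℕ) : (0 : ℝ) < (1 / 2) ^ k ∧ ((1 / 2 : ℝ)) ^ k ≤ 1 :=
  ⟨by positivity, pow_le_one₀ (by norm_num) (by norm_num)⟩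

theorem St.init {q : ℕ} {C : ℝ} {b κ b1 κ1 : ℝ → ℝ} (hB : BaseQ q C b κ b1 κ1) (mx ma : ℕ → ℕ) : St q C 0 0 b κ mx ma := by
  have hC : 0 ≤ C := by
    have h1 := hB.k1 0
    have h2 := hB.kpos
    by_contra h
    push Not at h
    have h3 := abs_nonneg (κ1 0)
    nlinarith
  have hb1 : ∀ x, 0 ≤ b1 x := fun x => by
    refine le_trans (mul_nonneg ?_ (hB.b0 x)) (hB.dec x)
    rw [pow_mul]
    positivity
  refine ⟨hB.pair, hB.b0, hB.k0, hB.kpos, fun t ht => hB.out t (by simpa using ht), ?_, ?_, ?_, ?_⟩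
  · intro X hX
    rw [pow_zero] at hX
    have hX0 : 0 < X := by linarith
    refine ⟨fun x => (1 / X ^ (2 * q)) * b1 x, fun t => (1 / X ^ (2 * q)) * κ1 t, hB.pair1.smul _, ?_, ?_⟩
    · intro x
      unfold ind
      split_ifs with h
      · have h1 : X ^ (2 * q) ≤ x ^ (2 * q) := by
          have e : x ^ (2 * q) = |x| ^ (2 * q) := by
            rw [pow_mul, pow_mul, sq_abs]
          rw [e]
          exact pow_le_pow_left₀ hX0.le (by linarith) _
        have h2 : X ^ (2 * q) * b x ≤ b1 x := (mul_le_mul_of_nonneg_right h1 (hB.b0 x)).trans (hB.dec x)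
        rw [one_mul]
        change b x ≤ 1 / X ^ (2 * q) * b1 x
        rw [one_div, inv_mul_eq_div, le_div_iff₀ (by positivity)]
        linarith
      · rw [zero_mul]
        exact mul_nonneg (by positivity) (hb1 x)
    · intro t
      rw [abs_mul, abs_of_pos (show 0 < 1 / X ^ (2 * q) by positivity), pow_zero, mul_one]
      calc 1 / X ^ (2 * q) * |κ1 t| ≤ 1 / X ^ (2 * q) * (C * κ t) :=
            mul_le_mul_of_nonneg_left (hB.k1 t) (by positivity)
        _ = C / X ^ (2 * q) * κ t := by ring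
  · refine ⟨b1, κ1, hB.pair1, ?_, ?_⟩
    · intro x
      have h0 : 0 ≤ x ^ (2 * q) := by
        rw [pow_mul]
        positivity
      have h1 : x ^ (2 * q) * ind (2 * 4 ^ 0) x ≤ x ^ (2 * q) := by
        have := mul_le_mul_of_nonneg_left (ind_le_one (2 * 4 ^ 0) x) h0
        linarith
      exact (mul_le_mul_of_nonneg_right h1 (hB.b0 x)).trans (hB.dec x)
    · intro t
      refine (hB.k1 t).trans (mul_le_mul_of_nonneg_right ?_ (hB.k0 t))
      rw [mul_zero, pow_zero, div_one]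
      have h4 : (1 : ℝ) ≤ 4 ^ q := one_le_pow₀ (by norm_num)
      nlinarith
  · intro l hl
    exact absurd hl (Nat.not_lt_zero _)
  · intro l hl
    exact absurd hl (Nat.not_lt_zero _)

/-- `l = i`: from `run` with `X = 4^i`; the others by `Maj.mono` -/
theorem St.grow {q : ℕ} {C : ℝ} (hC : 0 ≤ C) {i a : ℕ} {f F : ℝ → ℝ} {mx ma : ℕ → ℕ} (h : St q C i a f F mx ma) :
    St q C (i + 1) a f F (Function.update mx i a) ma := by
  refine ⟨h.pair, h.f0, h.F0, h.pos, h.out, ?_, ?_, ?_, ?_⟩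
  · intro X hX
    refine h.run X (le_trans ?_ hX)
    exact pow_le_pow_right₀ (by norm_num) (Nat.le_succ i)
  · refine h.mom.mono h.f0 h.F0 (fun x => ?_) le_rfl
    have h0 : 0 ≤ x ^ (2 * q) := by
      rw [pow_mul]
      positivity
    refine mul_le_mul_of_nonneg_left (ind_anti ?_ x) h0
    have : (4 : ℝ) ^ i ≤ 4 ^ (i + 1) := pow_le_pow_right₀ (by norm_num) (Nat.le_succ i)
    linarith
  · intro l hl
    by_cases hli : l = i
    · subst hli
      rw [Function.update_self]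
      refine ⟨le_rfl, ?_⟩
      rw [Nat.sub_self, pow_zero]
      have h1 := h.run (4 ^ l) le_rfl
      have e1 : (4 : ℝ) ^ l * (3 - 1) = 2 * 4 ^ l := by ring
      have e2 : C * (2 - 1) / 4 ^ (2 * q * (l + a)) = C / (4 ^ l * 4 ^ a) ^ (2 * q) := by
        rw [← pow_add, ← pow_mul]
        congr 1
        · ring
        · congr 1
          ring
      rw [e1, e2]
      exact h1
    · rw [Function.update_of_ne hli]
      exact h.rx l (by omega)
  · intro l hl
    obtain ⟨h1, h2⟩ := h.ra l hl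
    refine ⟨by omega, ?_⟩
    have h3 : ((1 / 2 : ℝ)) ^ (i + 1 - ma l) ≤ (1 / 2) ^ (i - ma l) :=
      pow_le_pow_of_le_one (by norm_num) (by norm_num) (by omega)
    refine h2.mono h.F0 h.f0 (fun x => ind_anti ?_ x) ?_
    · exact mul_le_mul_of_nonneg_left (by linarith) (by positivity)
    · exact div_le_div_of_nonneg_right (mul_le_mul_of_nonneg_left (by linarith) hC) (by positivity)

/-- `s = 4^i`. `run`, `mom` and `l = a` in `rx`: `op_fresh`, `op_mom` with `r = 4^a`. `l < a` in `rx`: `op_push` with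
`τ = 4^l (1/2)^(i - ma l)`, because `C / (τ 4^i)^(2q) ≤ C (1/2)^(i - ma l) / 4^(2q(l + ma l))` (`q ≥ 1`). `ra`: `op_keep`,
`2 (1/2)^(a + 1 - m) = (1/2)^(a - m)`. `pos`: `FP_pos` -/
theorem St.turn {q : ℕ} (hq : 1 ≤ q) {C : ℝ} (hC : 0 ≤ C) {b κ b1 κ1 : ℝ → ℝ} (hB : BaseQ q C b κ b1 κ1) {i a : ℕ} {f F : ℝ → ℝ}
    {mx ma : ℕ → ℕ} (h : St q C i a f F mx ma) :
    St q C (a + 1) i (cv F (sc (4 ^ i) b)) (fun t => f t * κ (t / 4 ^ i)) (Function.update ma a i) mx := by
  have hs : (0 : ℝ) < 4 ^ i := by positivity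
  have hr : (0 : ℝ) < 4 ^ a := by positivity
  obtain ⟨hn1, hn2⟩ := op_nonneg hB hs h.f0 h.F0
  have hle : (4 : ℝ) ^ a ≤ 4 ^ (a + 1) := pow_le_pow_right₀ (by norm_num) (Nat.le_succ a)
  refine ⟨op_pair hB hs h.pair, hn1, hn2, ?_, ?_, ?_, ?_, ?_, ?_⟩
  · rw [zero_div]
    exact mul_pos (FP_pos h.pair h.F0 h.pos) hB.kpos
  · intro t ht
    rw [hB.out (t / 4 ^ i) (by rw [abs_div, abs_of_pos hs, le_div_iff₀ hs, one_mul]; exact ht), mul_zero]
  · intro X hX
    exact op_fresh hB hs h.pair h.f0 h.F0 hr h.out (hle.trans hX)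
  · have h1 := op_mom hB hs h.pair h.f0 h.F0 hr h.out
    have e1 : C * 4 ^ q / ((4 : ℝ) ^ i) ^ (2 * q) = C * 4 ^ q / 4 ^ (2 * q * i) := by
      rw [← pow_mul]
      congr 2
      ring
    rw [e1] at h1
    refine h1.mono hn1 hn2 (fun x => ?_) le_rfl
    have h0 : 0 ≤ x ^ (2 * q) := by
      rw [pow_mul]
      positivity
    refine mul_le_mul_of_nonneg_left (ind_anti ?_ x) h0
    linarith
  · intro l hl
    by_cases hla : l = a
    · subst hla
      rw [Function.update_self]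
      refine ⟨le_rfl, ?_⟩
      rw [Nat.sub_self, pow_zero]
      have h1 := op_fresh hB hs h.pair h.f0 h.F0 hr h.out (le_refl ((4 : ℝ) ^ l))
      have e1 : (4 : ℝ) ^ l * (3 - 1) = 2 * 4 ^ l := by ring
      have e2 : C * (2 - 1) / 4 ^ (2 * q * (l + i)) = C / (4 ^ l * 4 ^ i) ^ (2 * q) := by
        rw [← pow_add, ← pow_mul]
        congr 1
        · ring
        · congr 1
          ring
      rw [e1, e2]
      exact h1
    · rw [Function.update_of_ne hla]
      obtain ⟨h1, h2⟩ := h.ra l (by omega)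
      refine ⟨h1.le, ?_⟩
      set m := ma l with hm
      have hτ : (0 : ℝ) < 4 ^ l * (1 / 2) ^ (i - m) := by positivity
      have h3 := op_push hB hs h.pair h.f0 h.F0 hτ h2
      have e1 : (4 : ℝ) ^ l * (3 - 2 * (1 / 2) ^ (i - m)) + 4 ^ l * (1 / 2) ^ (i - m) =
          4 ^ l * (3 - (1 / 2) ^ (i - m)) := by ring
      rw [e1] at h3
      refine h3.mono hn1 hn2 (fun x => le_rfl) ?_
      have e2 : (4 : ℝ) ^ l * (1 / 2) ^ (i - m) * 4 ^ i = 4 ^ (l + m) * 2 ^ (i - m) := by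
        have e3 : (4 : ℝ) ^ i = 4 ^ m * 4 ^ (i - m) := by
          rw [← pow_add]
          congr 1
          omega
        have e4 : (1 / 2 : ℝ) ^ (i - m) * 4 ^ (i - m) = 2 ^ (i - m) := by
          rw [← mul_pow]
          norm_num
        calc (4 : ℝ) ^ l * (1 / 2) ^ (i - m) * 4 ^ i = 4 ^ l * 4 ^ m * ((1 / 2) ^ (i - m) * 4 ^ (i - m)) := by
              rw [e3]
              ring
          _ = 4 ^ (l + m) * 2 ^ (i - m) := by rw [e4, pow_add]
      rw [e2]
      have h5 : C / ((4 : ℝ) ^ (l + m) * 2 ^ (i - m)) ^ (2 * q) ≤ C * (1 / 2) ^ (i - m) / 4 ^ (2 * q * (l + m)) := by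
        rw [mul_pow, ← pow_mul, ← pow_mul]
        have h6 : (2 : ℝ) ^ (i - m) ≤ 2 ^ ((i - m) * (2 * q)) := by
          refine pow_le_pow_right₀ (by norm_num) ?_
          calc i - m = (i - m) * 1 := (mul_one _).symm
            _ ≤ (i - m) * (2 * q) := Nat.mul_le_mul_left _ (by omega)
        have e5 : (l + m) * (2 * q) = 2 * q * (l + m) := by ring
        have e6 : (1 / 2 : ℝ) ^ (i - m) = 1 / 2 ^ (i - m) := by rw [div_pow, one_pow]
        rw [e5, e6]
        calc C / ((4 : ℝ) ^ (2 * q * (l + m)) * 2 ^ ((i - m) * (2 * q)))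
            ≤ C / ((4 : ℝ) ^ (2 * q * (l + m)) * 2 ^ (i - m)) :=
              div_le_div_of_nonneg_left hC (by positivity) (mul_le_mul_of_nonneg_left h6 (by positivity))
          _ = C * (1 / 2 ^ (i - m)) / 4 ^ (2 * q * (l + m)) := by
              field_simp
      have e7 : C * (2 - 2 * (1 / 2) ^ (i - m)) / 4 ^ (2 * q * (l + m)) + C * (1 / 2) ^ (i - m) / 4 ^ (2 * q * (l + m)) =
          C * (2 - (1 / 2) ^ (i - m)) / 4 ^ (2 * q * (l + m)) := by ring
      linarith
  · intro l hl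
    obtain ⟨h1, h2⟩ := h.rx l hl
    refine ⟨by omega, ?_⟩
    set m := mx l with hm
    have e1 : 2 * (1 / 2 : ℝ) ^ (a + 1 - m) = (1 / 2) ^ (a - m) := by
      have e2 : a + 1 - m = (a - m) + 1 := by omega
      rw [e2, pow_succ]
      ring
    rw [e1]
    refine op_keep hB hs h.pair h.F0 ?_ h2
    have h3 := (st_half (a - m)).2
    exact div_nonneg (mul_nonneg hC (by linarith)) (by positivity)

end Pool.Agent.Lib.MP_d2370c_gt.SY
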