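import Pool.Agent.Lib.MP_d2370c_gt.SY.Defs

/-!
# SY, row S12: permutation and sign invariant convex bodies
-/

set_option autoImplicit false

open Finset MeasureTheory Filter Topology

namespace Pool.Agent.Lib.MP_d2370c_gt.SY

open Pool.Agent.Lib.MP_d2370c_gt Pool.Agent.Lib.MP_d2370c_gt.SQ

variable {N : ℕ}

theorem solid_of_signs {T : Set (Fin N → ℝ)} (hconv : Convex ℝ T)
    (hs : ∀ t ∈ T, ∀ e : Fin N → ℝ, (∀ j, e j = 1 ∨ e j = -1) → (fun j => e j * t j) ∈ T) : Solid T := by
  classical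
  intro t ht s hst
  have key : ∀ A : Finset (Fin N), (fun j => if j ∈ A then s j else t j) ∈ T := by
    intro A
    induction A using Finset.induction_on with
    | empty => simpa using ht
    | insert a A ha ih =>
      obtain ⟨l, hl1, hl2⟩ : ∃ l : ℝ, |l| ≤ 1 ∧ s a = l * t a := by
        by_cases h0 : t a = 0
        · refine ⟨0, by simp, ?_⟩
          have := hst a
          rw [h0, abs_zero] at this
          rw [zero_mul]
          exact abs_eq_zero.1 (le_antisymm this (abs_nonneg _))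
        · refine ⟨s a / t a, ?_, by field_simp⟩
          rw [abs_div]
          exact div_le_one_of_le₀ (hst a) (abs_nonneg _)
      have h1 := hs _ ih (fun j => if j = a then -1 else 1) (fun j => by
        by_cases h : j = a
        · right; simp [h]
        · left; simp [h])
      have h2 := abs_le.1 hl1
      have h3 := hconv ih h1 (a := (1 + l) / 2) (b := (1 - l) / 2) (by linarith) (by linarith) (by ring)
      have h4 : (fun j => if j ∈ insert a A then s j else t j) =
          ((1 + l) / 2) • (fun j => if j ∈ A then s j else t j) +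
            ((1 - l) / 2) • fun j => (if j = a then (-1 : ℝ) else 1) * (if j ∈ A then s j else t j) := by
        funext j
        simp only [Pi.add_apply, Pi.smul_apply, smul_eq_mul, mem_insert]
        by_cases hj : j = a
        · subst hj
          simp only [true_or, if_true, if_neg ha]
          rw [hl2]; ring
        · simp only [hj, false_or, if_false]
          ring
      rw [h4]
      exact h3
  have := key Finset.univ
  simpa using this

private theorem s12_avg {T : Set (Fin N → ℝ)} (hconv : Convex ℝ T) (hsol : Solid T)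
    (hp : ∀ t ∈ T, ∀ σ : Equiv.Perm (Fin N), (fun j => t (σ j)) ∈ T) {t : Fin N → ℝ} (ht : t ∈ T) {k : ℕ} (hk : 1 ≤ k)
    (S : Finset (Fin N)) (hS : S.card = k) : (fun j => if j ∈ S then (∑ i ∈ S, |t i|) / k else 0) ∈ T := by
  classical
  have hk0 : NeZero k := ⟨by omega⟩
  have hkr : (0 : ℝ) < k := by exact_mod_cast hk
  set x : Fin N → ℝ := fun j => if j ∈ S then |t j| else 0 with hx
  have hxT : x ∈ T := by
    refine hsol t ht x fun j => ?_
    rw [hx]
    dsimp only
    split_ifs
    · rw [abs_abs]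
    · rw [abs_zero]; exact abs_nonneg _
  let e : {j // j ∈ S} ≃ Fin k := S.equivFinOfCardEq hS
  let τ : Fin k → Equiv.Perm {j // j ∈ S} := fun a => (e.trans (Equiv.addRight a)).trans e.symm
  let σ : Fin k → Equiv.Perm (Fin N) := fun a => Equiv.Perm.ofSubtype (τ a)
  have h1 : ∑ a : Fin k, ((1 : ℝ) / k) • (fun j => x (σ a j)) ∈ T := by
    refine hconv.sum_mem (fun a _ => by positivity) ?_ (fun a _ => hp x hxT (σ a))
    rw [Finset.sum_const, card_univ, Fintype.card_fin, nsmul_eq_mul]
    field_simp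
  have h2 : ∑ a : Fin k, ((1 : ℝ) / k) • (fun j => x (σ a j)) = fun j => if j ∈ S then (∑ i ∈ S, |t i|) / k else 0 := by
    funext j
    rw [Finset.sum_apply]
    simp only [Pi.smul_apply, smul_eq_mul]
    rw [← Finset.mul_sum]
    by_cases hj : j ∈ S
    · rw [if_pos hj]
      have h3 : ∀ a : Fin k, x (σ a j) = |t (τ a ⟨j, hj⟩ : {j // j ∈ S})| := by
        intro a
        have e1 : σ a j = (τ a ⟨j, hj⟩ : {j // j ∈ S}) := Equiv.Perm.ofSubtype_apply_of_mem (τ a) hj
        rw [e1, hx]
        dsimp only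
        rw [if_pos (τ a ⟨j, hj⟩).2]
      rw [Finset.sum_congr rfl fun a _ => h3 a]
      have h4 : ∑ a : Fin k, |t (τ a ⟨j, hj⟩ : {j // j ∈ S})| = ∑ i : {j // j ∈ S}, |t i| := by
        refine Fintype.sum_bijective (fun a => τ a ⟨j, hj⟩) ?_ _ _ (fun a => rfl)
        have h5 : (fun a => τ a ⟨j, hj⟩) = fun a => e.symm (e ⟨j, hj⟩ + a) := rfl
        rw [h5]
        exact e.symm.bijective.comp (Equiv.addLeft (e ⟨j, hj⟩)).bijective
      rw [h4, Finset.sum_coe_sort S (fun i => |t i|)]
      ring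
    · rw [if_neg hj]
      have h3 : ∀ a : Fin k, x (σ a j) = 0 := by
        intro a
        have e1 : σ a j = j := Equiv.Perm.ofSubtype_apply_of_not_mem (τ a) hj
        rw [e1, hx]
        dsimp only
        rw [if_neg hj]
      rw [Finset.sum_congr rfl fun a _ => h3 a]
      simp
  rw [← h2]
  exact h1

private theorem s12_move {T : Set (Fin N → ℝ)}
    (hp : ∀ t ∈ T, ∀ σ : Equiv.Perm (Fin N), (fun j => t (σ j)) ∈ T) (S S' : Finset (Fin N)) (h : S.card = S'.card) (r : ℝ)
    (hr : (fun j => if j ∈ S' then r else 0) ∈ T) : (fun j => if j ∈ S then r else 0) ∈ T := by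
  classical
  let e : {j // j ∈ S} ≃ {j // j ∈ S'} := Finset.equivOfCardEq h
  have h1 := hp _ hr e.extendSubtype
  have h2 : (fun j => if j ∈ S then r else 0) = fun j => if e.extendSubtype j ∈ S' then r else (0 : ℝ) := by
    funext j
    by_cases hj : j ∈ S
    · rw [if_pos hj, if_pos (e.extendSubtype_mem j hj)]
    · rw [if_neg hj, if_neg (e.extendSubtype_not_mem j hj)]
  rw [h2]
  exact h1

theorem pol1_sym {T : Set (Fin N → ℝ)} (hT : IsCompact T) (hconv : Convex ℝ T) (hsol : Solid T)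
    (hp : ∀ t ∈ T, ∀ σ : Equiv.Perm (Fin N), (fun j => t (σ j)) ∈ T) (h0 : ∃ t ∈ T, t ≠ 0) : ∃ r : ℕ → ℝ, Pol1 1 1 T r := by
  classical
  obtain ⟨t0, ht0, hne⟩ := h0
  have main : ∀ k : ℕ, ∃ r : ℝ, 1 ≤ k → k ≤ N → 0 < r ∧ ∀ S : Finset (Fin N), S.card = k →
      (fun j => if j ∈ S then r else 0) ∈ T ∧ ∀ t ∈ T, ∑ j ∈ S, |t j| ≤ N * (1 * r * ((k : ℝ) / N) ^ (1 : ℝ)) := by
    intro k
    by_cases hk : 1 ≤ k ∧ k ≤ N
    swap
    · exact ⟨0, fun a b => absurd ⟨a, b⟩ hk⟩
    obtain ⟨hk1, hkN⟩ := hk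
    have hkr : (0 : ℝ) < k := by exact_mod_cast hk1
    have hNr : (0 : ℝ) < N := by exact_mod_cast (by omega : 0 < N)
    have hcont : ∀ S : Finset (Fin N), Continuous fun t : Fin N → ℝ => ∑ j ∈ S, |t j| := by
      intro S; fun_prop
    have hmax : ∀ S : Finset (Fin N), ∃ t ∈ T, ∀ s ∈ T, ∑ j ∈ S, |s j| ≤ ∑ j ∈ S, |t j| := by
      intro S
      obtain ⟨t, ht, h⟩ := hT.exists_isMaxOn ⟨t0, ht0⟩ (hcont S).continuousOn
      exact ⟨t, ht, fun s hs => h hs⟩
    choose w hwT hw using hmax
    have hne2 : (Finset.powersetCard k (Finset.univ : Finset (Fin N))).Nonempty := by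
      apply Finset.powersetCard_nonempty.2
      rw [card_univ, Fintype.card_fin]; exact hkN
    obtain ⟨S0, hS0, hS0m⟩ := Finset.exists_max_image (Finset.powersetCard k (Finset.univ : Finset (Fin N)))
      (fun S => ∑ j ∈ S, |w S j|) hne2
    rw [Finset.mem_powersetCard] at hS0
    have hle : ∀ S : Finset (Fin N), S.card = k → ∀ t ∈ T, ∑ j ∈ S, |t j| ≤ ∑ j ∈ S0, |w S0 j| := by
      intro S hS t ht
      exact (hw S t ht).trans (hS0m S (Finset.mem_powersetCard.2 ⟨Finset.subset_univ _, hS⟩))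
    refine ⟨(∑ j ∈ S0, |w S0 j|) / k, fun _ _ => ⟨?_, fun S hS => ⟨?_, fun t ht => ?_⟩⟩⟩
    · apply div_pos _ hkr
      obtain ⟨j0, hj0⟩ : ∃ j, t0 j ≠ 0 := by
        by_contra h
        push Not at h
        exact hne (funext h)
      obtain ⟨S, hS1, hS2, hS3⟩ := Finset.exists_subsuperset_card_eq (s := {j0}) (t := (Finset.univ : Finset (Fin N))) (n := k)
        (Finset.subset_univ _) (by rw [Finset.card_singleton]; exact hk1) (by rw [card_univ, Fintype.card_fin]; exact hkN)
      have h1 := hle S hS3 t0 ht0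
      have h2 : |t0 j0| ≤ ∑ j ∈ S, |t0 j| :=
        Finset.single_le_sum (f := fun j => |t0 j|) (fun j _ => abs_nonneg _) (hS1 (Finset.mem_singleton_self j0))
      exact (abs_pos.2 hj0).trans_le (h2.trans h1)
    · exact s12_move hp S S0 (by rw [hS, hS0.2]) _ (s12_avg hconv hsol hp (hwT S0) hk1 S0 hS0.2)
    · refine (hle S hS t ht).trans (le_of_eq ?_)
      rw [Real.rpow_one]
      field_simp
  choose r hr using main
  exact ⟨r, fun k h1 h2 => hr k h1 h2⟩

end Pool.Agent.Lib.MP_d2370c_gt.SY
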